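import Pool.Agent.X73.LCJ.Step

set_option autoImplicit false

namespace Pool.Agent.X73.LCJ

open Finset

variable {W : Type} [Fintype W]

open Classical in
/-- the edges of `H`, oriented upwards -/
noncomputable def EE (H : SimpleGraph W) : Finset (W × W) :=
  Finset.univ.filter fun e => H.Adj e.1 e.2 ∧ Fintype.equivFin W e.1 < Fintype.equivFin W e.2

open Classical in
/-- the number of maps from the lists that are constant on the edges of `A` -/
noncomputable def MM (A : Finset (W × W)) (L : W → Finset ℕ) : ℕ :=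
  ((Fintype.piFinset L).filter fun f => ∀ e ∈ A, f e.1 = f e.2).card

lemma mem_EE {H : SimpleGraph W} {e : W × W} : e ∈ EE H ↔
    H.Adj e.1 e.2 ∧ Fintype.equivFin W e.1 < Fintype.equivFin W e.2 := by
  unfold EE
  simp

lemma proper_iff (H : SimpleGraph W) (f : W → ℕ) :
    (∀ u v, H.Adj u v → f u ≠ f v) ↔ ∀ e ∈ EE H, f e.1 ≠ f e.2 := by
  constructor
  · intro h e he
    exact h _ _ (mem_EE.1 he).1
  · intro h u v huv
    rcases lt_trichotomy (Fintype.equivFin W u) (Fintype.equivFin W v) with h1 | h1 | h1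
    · exact h (u, v) (mem_EE.2 ⟨huv, h1⟩)
    · exact absurd ((Fintype.equivFin W).injective h1) huv.ne
    · exact (h (v, u) (mem_EE.2 ⟨huv.symm, h1⟩)).symm

/-- Inclusion and exclusion. -/
lemma ncol_ie (H : SimpleGraph W) (L : W → Finset ℕ) :
    (ncol H L : ℤ) = ∑ A ∈ (EE H).powerset, (-1) ^ A.card * (MM A L : ℤ) := by
  classical
  have h1 : (ncol H L : ℤ) = ∑ f ∈ Fintype.piFinset L,
      ∏ e ∈ EE H, (1 + if f e.1 = f e.2 then (-1 : ℤ) else 0) := by
    have h2 : cols H L = (Fintype.piFinset L).filter fun f => ∀ e ∈ EE H, f e.1 ≠ f e.2 := by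
      ext f
      rw [mem_cols, Finset.mem_filter, Fintype.mem_piFinset, proper_iff]
    unfold ncol
    rw [h2, Finset.card_filter]
    push_cast
    refine Finset.sum_congr rfl fun f _ => ?_
    have h3 : ∀ e ∈ EE H, (1 + if f e.1 = f e.2 then (-1 : ℤ) else 0) =
        if f e.1 ≠ f e.2 then 1 else 0 := by
      intro e _
      by_cases h : f e.1 = f e.2 <;> simp [h]
    rw [Finset.prod_congr rfl h3, Finset.prod_ite_zero]
    simp
  rw [h1]
  have h4 : ∀ f ∈ Fintype.piFinset L, ∏ e ∈ EE H, (1 + if f e.1 = f e.2 then (-1 : ℤ) else 0) =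
      ∑ A ∈ (EE H).powerset, if ∀ e ∈ A, f e.1 = f e.2 then (-1 : ℤ) ^ A.card else 0 := by
    intro f _
    rw [Finset.prod_one_add]
    refine Finset.sum_congr rfl fun A _ => ?_
    rw [Finset.prod_ite_zero]
    simp
  rw [Finset.sum_congr rfl h4, Finset.sum_comm]
  refine Finset.sum_congr rfl fun A _ => ?_
  unfold MM
  rw [Finset.card_filter, ← Finset.sum_filter, Finset.sum_const, ← Finset.card_filter,
    nsmul_eq_mul, mul_comm]

/-- the classes of the relation generated by `A` -/
abbrev QQ (A : Finset (W × W)) : Type := Quot fun x y : W => (x, y) ∈ A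

open Classical in
noncomputable instance (A : Finset (W × W)) : Fintype (QQ A) :=
  Fintype.ofSurjective (Quot.mk _) Quot.mk_surjective

open Classical in
/-- the colours common to a class -/
noncomputable def common (A : Finset (W × W)) (L : W → Finset ℕ) (q : QQ A) : Finset ℕ :=
  (Finset.univ.biUnion L).filter fun c => ∀ x : W, Quot.mk _ x = q → c ∈ L x

lemma mem_common {A : Finset (W × W)} {L : W → Finset ℕ} {q : QQ A} {c : ℕ} :
    c ∈ common A L q ↔ ∀ x : W, Quot.mk _ x = q → c ∈ L x := by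
  classical
  unfold common
  rw [Finset.mem_filter]
  refine ⟨fun h => h.2, fun h => ⟨?_, h⟩⟩
  obtain ⟨x, hx⟩ := Quot.mk_surjective q
  rw [Finset.mem_biUnion]
  exact ⟨x, Finset.mem_univ _, h x hx⟩

lemma MM_eq (A : Finset (W × W)) (L : W → Finset ℕ) :
    MM A L = ∏ q : QQ A, (common A L q).card := by
  classical
  rw [← Fintype.card_piFinset]
  unfold MM
  symm
  apply Finset.card_bij (fun g _ => fun x => g (Quot.mk _ x))
  · intro g hg
    rw [Fintype.mem_piFinset] at hg
    rw [Finset.mem_filter, Fintype.mem_piFinset]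
    refine ⟨fun x => mem_common.1 (hg (Quot.mk _ x)) x rfl, fun e he => ?_⟩
    have : (Quot.mk _ e.1 : QQ A) = Quot.mk _ e.2 := Quot.sound he
    exact congrArg g this
  · intro g _ g' _ h
    funext q
    obtain ⟨x, rfl⟩ := Quot.mk_surjective q
    exact congrFun h x
  · intro f hf
    rw [Finset.mem_filter, Fintype.mem_piFinset] at hf
    obtain ⟨h1, h2⟩ := hf
    refine ⟨Quot.lift f fun x y hxy => h2 (x, y) hxy, ?_, rfl⟩
    rw [Fintype.mem_piFinset]
    intro q
    obtain ⟨x, rfl⟩ := Quot.mk_surjective q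
    rw [mem_common]
    intro y hy
    have : Quot.lift f (fun x y hxy => h2 (x, y) hxy) (Quot.mk _ x : QQ A) = f y := by
      rw [← hy]
    rw [this]
    exact h1 y

lemma common_le (A : Finset (W × W)) (L : W → Finset ℕ) (x : W) :
    common A L (Quot.mk _ x) ⊆ L x := fun _ hc => mem_common.1 hc x rfl

lemma common_const (A : Finset (W × W)) (R : Finset ℕ) (q : QQ A) :
    common A (fun _ => R) q = R := by
  obtain ⟨x, rfl⟩ := Quot.mk_surjective q
  ext c
  rw [mem_common]
  exact ⟨fun h => h x rfl, fun h _ _ => h⟩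

lemma common_ge (A : Finset (W × W)) (L : W → Finset ℕ) (q : QQ A) (m : ℕ)
    (hL : ∀ w, (L w).card = m) :
    m ≤ (common A L q).card + 2 * ∑ e ∈ A, (L e.1 \ L e.2).card := by
  classical
  obtain ⟨x0, rfl⟩ := Quot.mk_surjective q
  have hsub : L x0 ⊆ common A L (Quot.mk _ x0) ∪
      A.biUnion fun e => (L e.1 \ L e.2) ∪ (L e.2 \ L e.1) := by
    intro c hc
    rw [Finset.mem_union]
    by_cases h : ∃ e ∈ A, c ∈ (L e.1 \ L e.2) ∪ (L e.2 \ L e.1)
    · right
      rw [Finset.mem_biUnion]
      exact h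
    · left
      push Not at h
      rw [mem_common]
      intro y hy
      have hresp : ∀ x y : W, (x, y) ∈ A → (c ∈ L x) = (c ∈ L y) := by
        intro x y hxy
        have := h (x, y) hxy
        rw [Finset.mem_union, Finset.mem_sdiff, Finset.mem_sdiff] at this
        push Not at this
        exact propext ⟨fun h1 => this.1 h1, fun h1 => this.2 h1⟩
      have h3 : Quot.lift (fun x => c ∈ L x) hresp (Quot.mk _ y : QQ A) =
          Quot.lift (fun x => c ∈ L x) hresp (Quot.mk _ x0 : QQ A) := by rw [hy]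
      have h4 : (c ∈ L y) = (c ∈ L x0) := h3
      rw [h4]
      exact hc
  have h1 := Finset.card_le_card hsub
  rw [hL] at h1
  refine h1.trans ((Finset.card_union_le _ _).trans ?_)
  gcongr
  refine Finset.card_biUnion_le.trans ?_
  rw [Finset.mul_sum]
  refine Finset.sum_le_sum fun e _ => ?_
  refine (Finset.card_union_le _ _).trans ?_
  have := card_sdiff_eq (A := L e.2) (R := L e.1) (by rw [hL, hL])
  omega

/-- The number of classes of one edge. -/
lemma classes_one (x0 y0 : W) (h : x0 ≠ y0) :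
    Fintype.card W ≤ Fintype.card (QQ ({(x0, y0)} : Finset (W × W))) + 1 := by
  classical
  let φ : W → W := fun w => if w = y0 then x0 else w
  have hφ : ∀ x y : W, (x, y) ∈ ({(x0, y0)} : Finset (W × W)) → φ x = φ y := by
    intro x y hxy
    rw [Finset.mem_singleton, Prod.mk.injEq] at hxy
    obtain ⟨rfl, rfl⟩ := hxy
    simp [φ]
  have hinj : Function.Injective
      (fun w : {w : W // w ≠ y0} => (Quot.mk _ w.1 : QQ ({(x0, y0)} : Finset (W × W)))) := by
    intro a b hab
    have h1 : φ a.1 = φ b.1 := congrArg (Quot.lift φ hφ) hab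
    simp only [φ, if_neg a.2, if_neg b.2] at h1
    exact Subtype.ext h1
  have h2 : Fintype.card {w : W // w ≠ y0} ≤
      Fintype.card (QQ ({(x0, y0)} : Finset (W × W))) := Fintype.card_le_of_injective _ hinj
  rw [Fintype.card_subtype_compl, Fintype.card_subtype_eq] at h2
  omega

/-- The number of classes of at least two edges. -/
lemma classes_two (A : Finset (W × W))
    (hA : ∀ e ∈ A, Fintype.equivFin W e.1 < Fintype.equivFin W e.2) (h2 : 2 ≤ A.card) :
    Fintype.card (QQ A) + 2 ≤ Fintype.card W := by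
  classical
  set r := Fintype.equivFin W with hr
  have hrep : ∀ q : QQ A, ∃ x : W, Quot.mk _ x = q ∧ ∀ y : W, Quot.mk _ y = q → r x ≤ r y := by
    intro q
    obtain ⟨x, hx⟩ := Quot.mk_surjective q
    obtain ⟨y, hy, hmin⟩ := Finset.exists_min_image
      (Finset.univ.filter fun y : W => (Quot.mk _ y : QQ A) = q) r ⟨x, by simp [hx]⟩
    refine ⟨y, by simpa using hy, fun z hz => hmin z (by simp [hz])⟩
  choose rep hrep1 hrep2 using hrep
  have hinj : Function.Injective rep := by
    intro q q' h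
    rw [← hrep1 q, ← hrep1 q', h]
  -- a vertex with a smaller vertex in its class is not a representative
  have hnot : ∀ x y : W, (Quot.mk _ x : QQ A) = Quot.mk _ y → r x < r y → ∀ q, rep q ≠ y := by
    intro x y hxy hlt q hq
    have h1 : (Quot.mk _ y : QQ A) = q := by rw [← hq]; exact hrep1 q
    have h3 := hrep2 q x (hxy.trans h1)
    rw [hq] at h3
    exact absurd hlt (not_lt.2 h3)
  obtain ⟨e1, he1, e2, he2, hne⟩ := Finset.one_lt_card.1 (show 1 < A.card by omega)
  have hs1 : (Quot.mk _ e1.1 : QQ A) = Quot.mk _ e1.2 := Quot.sound he1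
  have hs2 : (Quot.mk _ e2.1 : QQ A) = Quot.mk _ e2.2 := Quot.sound he2
  obtain ⟨a, b, hab, ha, hb⟩ : ∃ a b : W, a ≠ b ∧ (∀ q, rep q ≠ a) ∧ ∀ q, rep q ≠ b := by
    by_cases hy : e1.2 = e2.2
    · have hx : e1.1 ≠ e2.1 := fun h => hne (Prod.ext h hy)
      have hx' : r e1.1 ≠ r e2.1 := fun h => hx (r.injective h)
      have hcl : (Quot.mk _ e1.1 : QQ A) = Quot.mk _ e2.1 := by
        rw [hs1, hs2, hy]
      rcases lt_or_gt_of_ne hx' with h | h
      · refine ⟨e2.1, e2.2, fun h' => ?_, hnot _ _ hcl h, hnot _ _ hs2 (hA e2 he2)⟩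
        have := hA e2 he2
        rw [h'] at this
        exact lt_irrefl _ this
      · refine ⟨e1.1, e1.2, fun h' => ?_, hnot _ _ hcl.symm h, hnot _ _ hs1 (hA e1 he1)⟩
        have := hA e1 he1
        rw [h'] at this
        exact lt_irrefl _ this
    · exact ⟨e1.2, e2.2, hy, hnot _ _ hs1 (hA e1 he1), hnot _ _ hs2 (hA e2 he2)⟩
  have h3 : (Finset.univ.image rep).card ≤ ((Finset.univ.erase a).erase b).card := by
    apply Finset.card_le_card
    intro x hx
    rw [Finset.mem_image] at hx
    obtain ⟨q, -, rfl⟩ := hx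
    rw [Finset.mem_erase, Finset.mem_erase]
    exact ⟨hb q, ha q, Finset.mem_univ _⟩
  rw [Finset.card_image_of_injective _ hinj, Finset.card_univ,
    Finset.card_erase_of_mem (Finset.mem_erase.2 ⟨hab.symm, Finset.mem_univ _⟩),
    Finset.card_erase_of_mem (Finset.mem_univ _), Finset.card_univ] at h3
  have h4 : 2 ≤ Fintype.card W := Fintype.one_lt_card_iff.2 ⟨a, b, hab⟩
  omega

lemma prod_gap {ι : Type} (s : Finset ι) (x : ι → ℕ) (m δ : ℤ) (hm : 0 ≤ m)
    (h1 : ∀ i ∈ s, (x i : ℤ) ≤ m) (h2 : ∀ i ∈ s, m - (x i : ℤ) ≤ δ) :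
    m * (m ^ s.card - ∏ i ∈ s, (x i : ℤ)) ≤ s.card * δ * m ^ s.card ∧
      0 ≤ m ^ s.card - ∏ i ∈ s, (x i : ℤ) := by
  classical
  induction s using Finset.induction_on with
  | empty => simp
  | insert i s hi ih =>
    obtain ⟨ih1, ih2⟩ := ih (fun j hj => h1 j (Finset.mem_insert_of_mem hj))
      (fun j hj => h2 j (Finset.mem_insert_of_mem hj))
    rw [Finset.prod_insert hi, Finset.card_insert_of_notMem hi]
    have hx1 := h1 i (Finset.mem_insert_self _ _)
    have hx2 := h2 i (Finset.mem_insert_self _ _)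
    have hx0 : (0 : ℤ) ≤ x i := Int.natCast_nonneg _
    set Q := ∏ j ∈ s, (x j : ℤ) with hQ
    set M := m ^ s.card with hM
    have hM0 : 0 ≤ M := pow_nonneg hm _
    rw [pow_succ, ← hM]
    push_cast
    constructor
    · have e1 : m * (M * m - x i * Q) = m * M * (m - x i) + x i * (m * (M - Q)) := by ring
      rw [e1]
      have e2 : m * M * (m - x i) ≤ m * M * δ := mul_le_mul_of_nonneg_left hx2 (mul_nonneg hm hM0)
      have e3 : x i * (m * (M - Q)) ≤ m * (m * (M - Q)) :=
        mul_le_mul_of_nonneg_right hx1 (mul_nonneg hm ih2)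
      have e4 : m * (m * (M - Q)) ≤ m * (s.card * δ * M) := mul_le_mul_of_nonneg_left ih1 hm
      nlinarith
    · have e1 : M * m - x i * Q = M * (m - x i) + x i * (M - Q) := by ring
      rw [e1]
      have : 0 ≤ M * (m - x i) := mul_nonneg hM0 (by linarith)
      have : 0 ≤ (x i : ℤ) * (M - Q) := mul_nonneg hx0 ih2
      linarith

/-- **Donner's theorem.** For large `m` the list colour function equals the chromatic
polynomial. -/
lemma donner (H : SimpleGraph W) : ∃ k0, ∀ m, k0 ≤ m → Pl H m = Pu H m := by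
  classical
  set n := Fintype.card W with hn
  refine ⟨2 ^ ((EE H).card + 1) * n + 1, fun m hm => ?_⟩
  apply le_antisymm (Pl_le_Pu H m)
  obtain ⟨L, hL, hmin⟩ := exists_min H m
  rw [← hmin]
  have hm1 : 1 ≤ m := by omega
  -- the deviation
  set D : ℤ := ∑ e ∈ EE H, ((L e.1 \ L e.2).card : ℤ) with hD
  have hD0 : 0 ≤ D := Finset.sum_nonneg fun _ _ => Int.natCast_nonneg _
  have h2D : 0 ≤ 2 * D := by linarith
  set U : W → Finset ℕ := fun _ => Finset.range m with hU
  have hMU : ∀ A : Finset (W × W), (MM A U : ℤ) = (m : ℤ) ^ Fintype.card (QQ A) := by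
    intro A
    rw [MM_eq]
    simp only [hU, common_const, Finset.card_range, Finset.prod_const, Finset.card_univ]
    push_cast
    rfl
  have hle : ∀ (A : Finset (W × W)) (q : QQ A), (common A L q).card ≤ m := by
    intro A q
    obtain ⟨x, rfl⟩ := Quot.mk_surjective q
    rw [← hL x]
    exact Finset.card_le_card (common_le A L x)
  have hgap : ∀ A : Finset (W × W), A ⊆ EE H →
      (m : ℤ) * ((MM A U : ℤ) - MM A L) ≤
        Fintype.card (QQ A) * (2 * D) * (m : ℤ) ^ Fintype.card (QQ A) ∧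
      0 ≤ (MM A U : ℤ) - MM A L := by
    intro A hA
    have h := prod_gap (Finset.univ : Finset (QQ A)) (fun q => (common A L q).card) m (2 * D)
      (Int.natCast_nonneg _) (fun q _ => by exact_mod_cast hle A q) (fun q _ => by
        have h1 := common_ge A L q m hL
        have h2 : ∑ e ∈ A, ((L e.1 \ L e.2).card : ℤ) ≤ D :=
          Finset.sum_le_sum_of_subset_of_nonneg hA fun _ _ _ => Int.natCast_nonneg _
        have h3 : (m : ℤ) ≤ (common A L q).card + 2 * ∑ e ∈ A, ((L e.1 \ L e.2).card : ℤ) := by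
          exact_mod_cast h1
        linarith)
    rw [Finset.card_univ] at h
    rw [hMU, MM_eq A L]
    push_cast
    exact h
  -- single edges
  have hone : ∀ e ∈ EE H, ((L e.1 \ L e.2).card : ℤ) * (m : ℤ) ^ (n + 1) ≤
      (m : ℤ) ^ 3 * ((MM {e} U : ℤ) - MM {e} L) := by
    intro e he
    set A : Finset (W × W) := {e} with hA
    have hne : e.1 ≠ e.2 := (mem_EE.1 he).1.ne
    have hcl : n ≤ Fintype.card (QQ A) + 1 := classes_one e.1 e.2 hne
    rw [hMU]
    set q0 : QQ A := Quot.mk _ e.1 with hq0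
    have h1 : (common A L q0).card + (L e.1 \ L e.2).card ≤ m := by
      have hsub : common A L q0 ⊆ L e.1 ∩ L e.2 := by
        intro c hc
        rw [mem_common] at hc
        rw [Finset.mem_inter]
        refine ⟨hc e.1 rfl, hc e.2 ?_⟩
        exact (Quot.sound (r := fun x y : W => (x, y) ∈ A) (by simp [hA])).symm
      have h2 := Finset.card_le_card hsub
      have h3 := Finset.card_sdiff_add_card_inter (L e.1) (L e.2)
      rw [hL] at h3
      omega
    have h2 : (MM A L : ℤ) * m ≤ (m - (L e.1 \ L e.2).card) * (m : ℤ) ^ Fintype.card (QQ A) := by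
      rw [MM_eq, ← Finset.mul_prod_erase Finset.univ _ (Finset.mem_univ q0)]
      have h3 : ∏ q ∈ Finset.univ.erase q0, (common A L q).card ≤
          m ^ (Finset.univ.erase q0).card := by
        apply Finset.prod_le_pow_card
        intro q _
        exact hle A q
      have h4 : (Finset.univ.erase q0).card + 1 = Fintype.card (QQ A) := by
        rw [Finset.card_erase_add_one (Finset.mem_univ _), Finset.card_univ]
      rw [← h4, pow_succ]
      push_cast
      have h5 : ((∏ q ∈ Finset.univ.erase q0, (common A L q).card : ℕ) : ℤ) ≤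
        (m : ℤ) ^ (Finset.univ.erase q0).card := by exact_mod_cast h3
      push_cast at h5
      have h6 : ((common A L q0).card : ℤ) ≤ m - (L e.1 \ L e.2).card := by
        have : ((common A L q0).card : ℤ) + (L e.1 \ L e.2).card ≤ m := by exact_mod_cast h1
        linarith
      have h7 : (0 : ℤ) ≤ ∏ q ∈ Finset.univ.erase q0, ((common A L q).card : ℤ) :=
        Finset.prod_nonneg fun _ _ => Int.natCast_nonneg _
      have h8 : (0 : ℤ) ≤ (m : ℤ) - (L e.1 \ L e.2).card := le_trans (Int.natCast_nonneg _) h6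
      calc ((common A L q0).card : ℤ) * (∏ q ∈ Finset.univ.erase q0, ((common A L q).card : ℤ)) * m
          ≤ (m - (L e.1 \ L e.2).card) * ((m : ℤ) ^ (Finset.univ.erase q0).card) * m := by
            apply mul_le_mul_of_nonneg_right _ (Int.natCast_nonneg _)
            exact mul_le_mul h6 h5 h7 h8
        _ = _ := by ring
    have h3 : ((L e.1 \ L e.2).card : ℤ) * (m : ℤ) ^ Fintype.card (QQ A) ≤
        m * ((m : ℤ) ^ Fintype.card (QQ A) - MM A L) := by linarith
    have h4 : (m : ℤ) ^ (n + 1) ≤ (m : ℤ) ^ Fintype.card (QQ A) * (m : ℤ) ^ 2 := by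
      rw [← pow_add]
      exact pow_le_pow_right₀ (by exact_mod_cast hm1) (by omega)
    calc ((L e.1 \ L e.2).card : ℤ) * (m : ℤ) ^ (n + 1)
        ≤ ((L e.1 \ L e.2).card : ℤ) * ((m : ℤ) ^ Fintype.card (QQ A) * (m : ℤ) ^ 2) :=
          mul_le_mul_of_nonneg_left h4 (Int.natCast_nonneg _)
      _ = (((L e.1 \ L e.2).card : ℤ) * (m : ℤ) ^ Fintype.card (QQ A)) * (m : ℤ) ^ 2 := by ring
      _ ≤ (m * ((m : ℤ) ^ Fintype.card (QQ A) - MM A L)) * (m : ℤ) ^ 2 :=
          mul_le_mul_of_nonneg_right h3 (pow_nonneg (Int.natCast_nonneg _) _)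
      _ = _ := by ring
  -- more edges
  have htwo : ∀ A ⊆ EE H, 2 ≤ A.card → (m : ℤ) ^ 3 * ((MM A U : ℤ) - MM A L) ≤
      n * (2 * D) * (m : ℤ) ^ n := by
    intro A hA h2
    have hcl : Fintype.card (QQ A) + 2 ≤ n :=
      classes_two A (fun e he => (mem_EE.1 (hA he)).2) h2
    obtain ⟨h3, -⟩ := hgap A hA
    have h4 : (m : ℤ) ^ Fintype.card (QQ A) * (m : ℤ) ^ 2 ≤ (m : ℤ) ^ n := by
      rw [← pow_add]
      exact pow_le_pow_right₀ (by exact_mod_cast hm1) (by omega)
    have h5 : ((Fintype.card (QQ A) : ℕ) : ℤ) ≤ n := by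
      have : Fintype.card (QQ A) ≤ n := by omega
      exact_mod_cast this
    calc (m : ℤ) ^ 3 * ((MM A U : ℤ) - MM A L) = (m * ((MM A U : ℤ) - MM A L)) * (m : ℤ) ^ 2 := by
          ring
      _ ≤ (Fintype.card (QQ A) * (2 * D) * (m : ℤ) ^ Fintype.card (QQ A)) * (m : ℤ) ^ 2 :=
          mul_le_mul_of_nonneg_right h3 (pow_nonneg (Int.natCast_nonneg _) _)
      _ = Fintype.card (QQ A) * (2 * D) * ((m : ℤ) ^ Fintype.card (QQ A) * (m : ℤ) ^ 2) := by ring
      _ ≤ n * (2 * D) * (m : ℤ) ^ n :=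
          mul_le_mul (mul_le_mul_of_nonneg_right h5 h2D) h4
            (mul_nonneg (pow_nonneg (Int.natCast_nonneg _) _) (pow_nonneg (Int.natCast_nonneg _) _))
            (mul_nonneg (Int.natCast_nonneg _) h2D)
  -- summation
  have hzero : MM (∅ : Finset (W × W)) L = MM (∅ : Finset (W × W)) U := by
    unfold MM
    simp [hU, hL]
  have hsum : (m : ℤ) ^ 3 * ((ncol H L : ℤ) - ncol H U) ≥
      D * (m : ℤ) ^ (n + 1) - 2 ^ (EE H).card * (n * (2 * D) * (m : ℤ) ^ n) := by
    rw [ncol_ie, ncol_ie, ← Finset.sum_sub_distrib, Finset.mul_sum]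
    have hterm : ∀ A ∈ (EE H).powerset,
        (if A.card = 1 then (m : ℤ) ^ 3 * ((MM A U : ℤ) - MM A L) else 0) -
          (n * (2 * D) * (m : ℤ) ^ n) ≤
        (m : ℤ) ^ 3 * ((-1) ^ A.card * (MM A L : ℤ) - (-1) ^ A.card * (MM A U : ℤ)) := by
      intro A hA
      rw [Finset.mem_powerset] at hA
      have hnn : 0 ≤ (n : ℤ) * (2 * D) * (m : ℤ) ^ n :=
        mul_nonneg (mul_nonneg (Int.natCast_nonneg _) (by linarith))
          (pow_nonneg (Int.natCast_nonneg _) _)
      have hg := (hgap A hA).2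
      have hg3 : 0 ≤ (m : ℤ) ^ 3 * ((MM A U : ℤ) - MM A L) :=
        mul_nonneg (pow_nonneg (Int.natCast_nonneg _) _) hg
      by_cases h0 : A.card = 0
      · rw [Finset.card_eq_zero] at h0
        subst h0
        rw [hzero, sub_self, mul_zero, if_neg (by rw [Finset.card_empty]; omega)]
        linarith
      · by_cases h1 : A.card = 1
        · rw [if_pos h1, h1]
          have : (m : ℤ) ^ 3 * ((-1) ^ 1 * (MM A L : ℤ) - (-1) ^ 1 * (MM A U : ℤ)) =
              (m : ℤ) ^ 3 * ((MM A U : ℤ) - MM A L) := by ring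
          rw [this]
          linarith
        · rw [if_neg h1]
          have h2 := htwo A hA (by omega)
          have h3 : (m : ℤ) ^ 3 * ((-1) ^ A.card * (MM A L : ℤ) - (-1) ^ A.card * (MM A U : ℤ)) =
              -((-1) ^ A.card * ((m : ℤ) ^ 3 * ((MM A U : ℤ) - MM A L))) := by ring
          rw [h3]
          rcases neg_one_pow_eq_or ℤ A.card with h4 | h4 <;> rw [h4] <;> linarith
    have h1 := Finset.sum_le_sum hterm
    rw [Finset.sum_sub_distrib, Finset.sum_const, Finset.card_powerset, nsmul_eq_mul] at h1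
    push_cast at h1
    have h2 : D * (m : ℤ) ^ (n + 1) ≤ ∑ A ∈ (EE H).powerset,
        (if A.card = 1 then (m : ℤ) ^ 3 * ((MM A U : ℤ) - MM A L) else 0) := by
      rw [← Finset.sum_filter]
      have h3 : ((EE H).powerset.filter fun A => A.card = 1) = (EE H).image fun e => {e} := by
        ext A
        rw [Finset.mem_filter, Finset.mem_powerset, Finset.mem_image]
        constructor
        · rintro ⟨h4, h5⟩
          obtain ⟨e, rfl⟩ := Finset.card_eq_one.1 h5
          exact ⟨e, h4 (Finset.mem_singleton_self _), rfl⟩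
        · rintro ⟨e, he, rfl⟩
          exact ⟨Finset.singleton_subset_iff.2 he, Finset.card_singleton _⟩
      rw [h3, Finset.sum_image (fun _ _ _ _ h => Finset.singleton_injective h), hD,
        Finset.sum_mul]
      exact Finset.sum_le_sum hone
    linarith
  have hfin : 0 ≤ D * (m : ℤ) ^ (n + 1) - 2 ^ (EE H).card * (n * (2 * D) * (m : ℤ) ^ n) := by
    have h1 : D * (m : ℤ) ^ (n + 1) - 2 ^ (EE H).card * (n * (2 * D) * (m : ℤ) ^ n) =
        D * (m : ℤ) ^ n * (m - 2 ^ ((EE H).card + 1) * n) := by ring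
    rw [h1]
    have h2 : (2 : ℤ) ^ ((EE H).card + 1) * n ≤ m := by
      have : 2 ^ ((EE H).card + 1) * n ≤ m := by omega
      exact_mod_cast this
    have h3 : 0 ≤ (m : ℤ) - 2 ^ ((EE H).card + 1) * n := by linarith
    exact mul_nonneg (mul_nonneg hD0 (pow_nonneg (Int.natCast_nonneg _) _)) h3
  have hm3 : (0 : ℤ) < (m : ℤ) ^ 3 := pow_pos (by exact_mod_cast hm1) _
  have h9 : 0 ≤ (m : ℤ) ^ 3 * ((ncol H L : ℤ) - ncol H U) := le_trans hfin hsum
  have h10 : 0 ≤ (ncol H L : ℤ) - ncol H U := by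
    by_contra hneg
    push Not at hneg
    have := mul_neg_of_pos_of_neg hm3 hneg
    linarith
  have h11 : (ncol H U : ℤ) ≤ ncol H L := by linarith
  exact_mod_cast h11

end Pool.Agent.X73.LCJ
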