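import Mathlib

set_option autoImplicit false

namespace Pool.Agent.X73.LCJ

open Finset

open Classical in
/-- the proper colourings of `H` from the lists `L` -/
noncomputable def cols {W : Type} [Fintype W] (H : SimpleGraph W) (L : W → Finset ℕ) :
    Finset (W → ℕ) :=
  (Fintype.piFinset L).filter fun f => ∀ u v, H.Adj u v → f u ≠ f v

/-- `P(H, L)`: the number of proper colourings of `H` from the lists `L`. -/
noncomputable def ncol {W : Type} [Fintype W] (H : SimpleGraph W) (L : W → Finset ℕ) : ℕ :=
  (cols H L).card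

/-- `P_ℓ(H, m)`: the least number of proper colourings over all assignments of lists of size `m`. -/
noncomputable def Pl {W : Type} [Fintype W] (H : SimpleGraph W) (m : ℕ) : ℕ :=
  sInf {N : ℕ | ∃ L : W → Finset ℕ, (∀ w, (L w).card = m) ∧ ncol H L = N}

/-- `P(H, m)`: the number of proper colourings with the colours `0, …, m-1`. -/
noncomputable def Pu {W : Type} [Fintype W] (H : SimpleGraph W) (m : ℕ) : ℕ :=
  ncol H fun _ => Finset.range m

section basic

variable {W : Type} [Fintype W] {H : SimpleGraph W} {L L' : W → Finset ℕ}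

lemma mem_cols {f : W → ℕ} :
    f ∈ cols H L ↔ (∀ w, f w ∈ L w) ∧ ∀ u v, H.Adj u v → f u ≠ f v := by
  classical
  unfold cols
  simp only [Finset.mem_filter, Fintype.mem_piFinset]

lemma ncol_mono (h : ∀ w, L w ⊆ L' w) : ncol H L ≤ ncol H L' := by
  apply Finset.card_le_card
  intro f hf
  rw [mem_cols] at hf ⊢
  exact ⟨fun w => h w (hf.1 w), hf.2⟩

lemma exists_min (H : SimpleGraph W) (m : ℕ) :
    ∃ L : W → Finset ℕ, (∀ w, (L w).card = m) ∧ ncol H L = Pl H m :=
  Nat.sInf_mem (s := {N : ℕ | ∃ L : W → Finset ℕ, (∀ w, (L w).card = m) ∧ ncol H L = N})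
    ⟨_, fun _ => Finset.range m, fun _ => Finset.card_range m, rfl⟩

lemma Pl_le (L : W → Finset ℕ) {m : ℕ} (hL : ∀ w, m ≤ (L w).card) : Pl H m ≤ ncol H L := by
  choose L' hL' hc using fun w => Finset.exists_subset_card_eq (hL w)
  refine le_trans (Nat.sInf_le ⟨L', hc, rfl⟩) (ncol_mono hL')

lemma Pl_le_Pu (H : SimpleGraph W) (m : ℕ) : Pl H m ≤ Pu H m :=
  Pl_le _ fun _ => (Finset.card_range m).ge

/-- The deletion lemma. -/
lemma ncol_delete {W' : Type} [Fintype W'] (H : SimpleGraph W) (L : W → Finset ℕ) (w0 : W)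
    (ι : W' → W) (hι : Function.Injective ι) (hr : ∀ w, w ≠ w0 ↔ ∃ w', ι w' = w) :
    ncol H L = ∑ c ∈ L w0, ncol (H.comap ι) (fun w' => by
      classical exact if H.Adj w0 (ι w') then (L (ι w')).erase c else L (ι w')) := by
  classical
  unfold ncol
  rw [Finset.card_eq_sum_card_fiberwise (f := fun f => f w0) (t := L w0)
    (fun f hf => (mem_cols.1 hf).1 w0)]
  refine Finset.sum_congr rfl fun c hc => ?_
  apply Finset.card_bij (fun f _ => f ∘ ι)
  · intro f hf
    rw [Finset.mem_filter, mem_cols] at hf
    obtain ⟨⟨h1, h2⟩, h3⟩ := hf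
    rw [mem_cols]
    refine ⟨fun w' => ?_, fun u v huv => h2 _ _ huv⟩
    simp only [Function.comp_apply]
    split_ifs with hadj
    · rw [Finset.mem_erase]
      refine ⟨?_, h1 _⟩
      have := h2 _ _ hadj
      have h4 : f w0 = c := h3
      rw [h4] at this
      exact this.symm
    · exact h1 _
  · intro f hf g hg hfg
    rw [Finset.mem_filter] at hf hg
    funext w
    by_cases hw : w = w0
    · subst hw
      rw [hf.2, hg.2]
    · obtain ⟨w', rfl⟩ := (hr w).1 hw
      exact congrFun hfg w'
  · intro g hg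
    rw [mem_cols] at hg
    obtain ⟨h1, h2⟩ := hg
    have hex : ∀ w, w ≠ w0 → ∃ w', ι w' = w := fun w hw => (hr w).1 hw
    have hne : ∀ w', ι w' ≠ w0 := fun w' => (hr _).2 ⟨w', rfl⟩
    let f : W → ℕ := fun w => if hw : w = w0 then c else g (Classical.choose (hex w hw))
    have hf0 : f w0 = c := dif_pos rfl
    have hfι : ∀ w', f (ι w') = g w' := by
      intro w'
      have : f (ι w') = g (Classical.choose (hex (ι w') (hne w'))) := dif_neg (hne w')
      rw [this]
      congr 1
      exact hι (Classical.choose_spec (hex (ι w') (hne w')))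
    refine ⟨f, ?_, funext hfι⟩
    rw [Finset.mem_filter, mem_cols]
    refine ⟨⟨?_, ?_⟩, hf0⟩
    · intro w
      by_cases hw : w = w0
      · subst hw
        rw [hf0]
        exact hc
      · obtain ⟨w', rfl⟩ := hex w hw
        rw [hfι]
        have := h1 w'
        split_ifs at this with hadj
        · exact Finset.mem_of_mem_erase this
        · exact this
    · intro u v huv
      by_cases hu : u = w0
      · subst hu
        have hv : v ≠ u := huv.ne'
        obtain ⟨v', rfl⟩ := hex v hv
        rw [hf0, hfι]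
        have := h1 v'
        rw [if_pos huv] at this
        exact (Finset.ne_of_mem_erase this).symm
      · by_cases hv : v = w0
        · subst hv
          obtain ⟨u', rfl⟩ := hex u hu
          rw [hf0, hfι]
          have := h1 u'
          rw [if_pos huv.symm] at this
          exact Finset.ne_of_mem_erase this
        · obtain ⟨u', rfl⟩ := hex u hu
          obtain ⟨v', rfl⟩ := hex v hv
          rw [hfι, hfι]
          exact h2 _ _ huv

/-- Splitting the list of one vertex. -/
lemma ncol_split [DecidableEq W] {W' : Type} [Fintype W'] (H : SimpleGraph W) (L : W → Finset ℕ) (w0 : W)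
    (ι : W' → W) (hι : Function.Injective ι) (hr : ∀ w, w ≠ w0 ↔ ∃ w', ι w' = w)
    (S : Finset ℕ) (hS : S ⊆ L w0) (M : W' → Finset ℕ)
    (hM : ∀ c ∈ L w0 \ S, ∀ w', M w' ⊆ (L (ι w')).erase c) :
    ncol H (Function.update L w0 S) + (L w0 \ S).card * ncol (H.comap ι) M ≤ ncol H L := by
  classical
  have hne : ∀ w', ι w' ≠ w0 := fun w' => (hr _).2 ⟨w', rfl⟩
  rw [ncol_delete H L w0 ι hι hr, ncol_delete H (Function.update L w0 S) w0 ι hι hr]
  rw [Function.update_self]
  simp only [Function.update_of_ne (hne _)]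
  rw [← Finset.sum_sdiff hS, add_comm]
  gcongr
  rw [← smul_eq_mul]
  refine Finset.card_nsmul_le_sum _ _ _ fun c hc => ncol_mono fun w' => ?_
  split_ifs
  · exact hM c hc w'
  · exact (hM c hc w').trans (Finset.erase_subset _ _)

end basic

end Pool.Agent.X73.LCJ
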