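import Pool.Agent.X73.LCJ.Join

set_option autoImplicit false

namespace Pool.Agent.X73.LCJ

open Finset

variable {V : Type} [Fintype V]

lemma hall_of_card {ι : Type} [Fintype ι] (t : ι → Finset ℕ) (h : ∀ i, Fintype.card ι ≤ (t i).card) :
    ∃ f : ι → ℕ, Function.Injective f ∧ ∀ i, f i ∈ t i := by
  classical
  apply (Finset.all_card_le_biUnion_card_iff_exists_injective t).1
  intro s
  rcases s.eq_empty_or_nonempty with rfl | ⟨a, ha⟩
  · simp
  · exact (Finset.card_le_univ s).trans ((h a).trans
      (Finset.card_le_card (Finset.subset_biUnion_of_mem t ha)))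

/-- For large `p` the join with `K_p` is colourable from all lists of size `p + j`. -/
lemma choosable (G : SimpleGraph V) (j p : ℕ) (hG : G.Colorable j)
    (hp : Fintype.card V ^ 2 ≤ p) (L : V ⊕ Fin p → Finset ℕ) (hL : ∀ w, (L w).card = p + j) :
    1 ≤ ncol (J G p) L := by
  classical
  set n := Fintype.card V with hn
  unfold ncol
  rw [Nat.one_le_iff_ne_zero, ← Nat.pos_iff_ne_zero, Finset.card_pos]
  obtain ⟨S, -, hS⟩ := Finset.exists_max_image
    ((Finset.univ : Finset (V ⊕ Fin p)).powerset)
    (fun S => (S.card : ℤ) - ((S.biUnion L).card : ℤ)) ⟨∅, Finset.empty_mem_powerset _⟩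
  have hmax : ∀ T : Finset (V ⊕ Fin p), (T.card : ℤ) - ((T.biUnion L).card : ℤ) ≤
      (S.card : ℤ) - ((S.biUnion L).card : ℤ) := fun T => hS T (by simp)
  rcases le_or_gt S.card (S.biUnion L).card with hle | hlt
  · -- all distinct colours
    obtain ⟨f, hf, hfL⟩ := (Finset.all_card_le_biUnion_card_iff_exists_injective L).1 (by
      intro T
      have := hmax T
      have h2 : (S.card : ℤ) ≤ ((S.biUnion L).card : ℤ) := by exact_mod_cast hle
      have h3 : (T.card : ℤ) ≤ ((T.biUnion L).card : ℤ) := by omega
      exact_mod_cast h3)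
    exact ⟨f, mem_cols.2 ⟨hfL, fun u v huv h => huv.ne (hf h)⟩⟩
  · set C := S.biUnion L with hC
    -- the outside
    obtain ⟨h, hinj, hmem⟩ := (Finset.all_card_le_biUnion_card_iff_exists_injective
      fun w : {w // w ∉ S} => L w.1 \ C).1 (by
      intro T
      set T' := T.map (Function.Embedding.subtype _) with hT'
      have h1 := hmax (S ∪ T')
      have hdisj : Disjoint S T' := by
        rw [Finset.disjoint_left]
        intro x hx hx'
        rw [hT', Finset.mem_map] at hx'
        obtain ⟨y, -, rfl⟩ := hx'
        exact y.2 hx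
      have h2 : (S ∪ T').card = S.card + T.card := by
        rw [Finset.card_union_of_disjoint hdisj, hT', Finset.card_map]
      have h3 : (S ∪ T').biUnion L = C ∪ T.biUnion fun w => L w.1 \ C := by
        ext c
        simp only [hT', Finset.mem_biUnion, Finset.mem_union, Finset.mem_map, hC,
          Function.Embedding.subtype_apply, Finset.mem_sdiff]
        constructor
        · rintro ⟨w, hw | ⟨y, hy, rfl⟩, hc⟩
          · exact Or.inl ⟨w, hw, hc⟩
          · by_cases hcC : ∃ a ∈ S, c ∈ L a
            · exact Or.inl hcC
            · exact Or.inr ⟨y, hy, hc, hcC⟩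
        · rintro (⟨w, hw, hc⟩ | ⟨y, hy, hc, -⟩)
          · exact ⟨w, Or.inl hw, hc⟩
          · exact ⟨y.1, Or.inr ⟨y, hy, rfl⟩, hc⟩
      have h4 : (C ∪ T.biUnion fun w => L w.1 \ C).card =
          C.card + (T.biUnion fun w => L w.1 \ C).card := by
        apply Finset.card_union_of_disjoint
        rw [Finset.disjoint_left]
        intro c hc hc'
        rw [Finset.mem_biUnion] at hc'
        obtain ⟨w, -, hw⟩ := hc'
        exact (Finset.mem_sdiff.1 hw).2 hc
      rw [h3, h2, h4] at h1
      push_cast at h1
      have h5 : (T.card : ℤ) ≤ ((T.biUnion fun w => L w.1 \ C).card : ℤ) := by omega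
      exact_mod_cast h5)
    have hSle : S.card ≤ n + p := by
      refine (Finset.card_le_univ S).trans ?_
      rw [Fintype.card_sum, Fintype.card_fin]
    have hCge : p + j ≤ C.card := by
      obtain ⟨w, hw⟩ : S.Nonempty := by
        rw [← Finset.card_pos]
        omega
      rw [← hL w, hC]
      exact Finset.card_le_card (Finset.subset_biUnion_of_mem L hw)
    -- common colours
    set VS : Finset V := Finset.univ.filter fun v => Sum.inl v ∈ S with hVS
    set D := C \ VS.biUnion (fun v => C \ L (Sum.inl v)) with hD
    have hDc : j ≤ D.card := by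
      have h1 : (VS.biUnion (fun v => C \ L (Sum.inl v))).card ≤ n * n := by
        refine Finset.card_biUnion_le.trans ?_
        have h2 : ∀ v ∈ VS, (C \ L (Sum.inl v)).card ≤ n := by
          intro v hv
          rw [hVS, Finset.mem_filter] at hv
          have hsub : L (Sum.inl v) ⊆ C := by
            rw [hC]
            exact Finset.subset_biUnion_of_mem L hv.2
          rw [Finset.card_sdiff_of_subset hsub, hL]
          omega
        refine (Finset.sum_le_card_nsmul _ _ _ h2).trans ?_
        rw [smul_eq_mul]
        exact Nat.mul_le_mul_right _ (Finset.card_le_univ VS)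
      have h2 := Finset.le_card_sdiff (VS.biUnion (fun v => C \ L (Sum.inl v))) C
      have h3 : n ^ 2 = n * n := sq n
      rw [hD]
      omega
    obtain ⟨D', hD', hD'c⟩ := Finset.exists_subset_card_eq hDc
    let e : Fin j ≃ D' := (Finset.equivFinOfCardEq hD'c).symm
    let φ : Fin j → ℕ := fun i => (e i : ℕ)
    have hφinj : Function.Injective φ := fun a b hab => e.injective (Subtype.ext hab)
    have hφD : ∀ i, φ i ∈ D := fun i => hD' (e i).2
    obtain ⟨χ⟩ := hG
    obtain ⟨k, hkinj, hkmem⟩ := hall_of_card
      (fun i : Fin p => L (Sum.inr i) \ Finset.univ.image φ) (by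
      intro i
      rw [Fintype.card_fin]
      have h1 := Finset.le_card_sdiff (Finset.univ.image φ) (L (Sum.inr i))
      have h2 : (Finset.univ.image φ).card ≤ j := Finset.card_image_le.trans (by simp)
      rw [hL] at h1
      omega)
    let f : V ⊕ Fin p → ℕ := fun w => if hw : w ∉ S then h ⟨w, hw⟩ else
      Sum.elim (fun v => φ (χ v)) (fun i => k i) w
    have hf1 : ∀ w (hw : w ∉ S), f w = h ⟨w, hw⟩ := fun w hw => dif_pos hw
    have hf2 : ∀ v, (Sum.inl v : V ⊕ Fin p) ∈ S → f (Sum.inl v) = φ (χ v) := fun v hv => by
      show (if hw : _ then _ else _) = _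
      rw [dif_neg (not_not.2 hv)]
      rfl
    have hf3 : ∀ i, (Sum.inr i : V ⊕ Fin p) ∈ S → f (Sum.inr i) = k i := fun i hi => by
      show (if hw : _ then _ else _) = _
      rw [dif_neg (not_not.2 hi)]
      rfl
    have hin : ∀ w ∈ S, f w ∈ L w ∧ f w ∈ C := by
      intro w hw
      have hsub : L w ⊆ C := by
        rw [hC]
        exact Finset.subset_biUnion_of_mem L hw
      have hmemL : f w ∈ L w := by
        rcases w with v | i
        · rw [hf2 v hw]
          have := hφD (χ v)
          rw [hD, Finset.mem_sdiff] at this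
          by_contra hcon
          apply this.2
          have hvS : v ∈ VS := by
            rw [hVS, Finset.mem_filter]
            exact ⟨Finset.mem_univ _, hw⟩
          rw [Finset.mem_biUnion]
          exact ⟨v, hvS, Finset.mem_sdiff.2 ⟨this.1, hcon⟩⟩
        · rw [hf3 i hw]
          exact (Finset.mem_sdiff.1 (hkmem i)).1
      exact ⟨hmemL, hsub hmemL⟩
    have hout : ∀ w, w ∉ S → f w ∈ L w ∧ f w ∉ C := by
      intro w hw
      rw [hf1 w hw]
      exact Finset.mem_sdiff.1 (hmem ⟨w, hw⟩)
    refine ⟨f, mem_cols.2 ⟨fun w => ?_, fun u v huv => ?_⟩⟩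
    · by_cases hw : w ∈ S
      · exact (hin w hw).1
      · exact (hout w hw).1
    · by_cases hu : u ∈ S
      · by_cases hv : v ∈ S
        · rcases u with a | i <;> rcases v with b | l
          · rw [hf2 a hu, hf2 b hv]
            intro he
            have hadj : G.Adj a b := huv
            exact χ.valid hadj (hφinj he)
          · rw [hf2 a hu, hf3 l hv]
            intro he
            apply (Finset.mem_sdiff.1 (hkmem l)).2
            rw [← he, Finset.mem_image]
            exact ⟨_, Finset.mem_univ _, rfl⟩
          · rw [hf3 i hu, hf2 b hv]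
            intro he
            apply (Finset.mem_sdiff.1 (hkmem i)).2
            rw [he, Finset.mem_image]
            exact ⟨_, Finset.mem_univ _, rfl⟩
          · rw [hf3 i hu, hf3 l hv]
            intro he
            have hadj : i ≠ l := huv
            exact hadj (hkinj he)
        · intro he
          exact (hout v hv).2 (he ▸ (hin u hu).2)
      · by_cases hv : v ∈ S
        · intro he
          exact (hout u hu).2 (he ▸ (hin v hv).2)
        · rw [hf1 u hu, hf1 v hv]
          intro he
          exact huv.ne (congrArg Subtype.val (hinj he))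

end Pool.Agent.X73.LCJ
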