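import Pool.Agent.X73.LCJ.Step
import Pool.Agent.X73.LCJ.Choose

set_option autoImplicit false

namespace Pool.Agent.X73.LCJ

open Finset

/-- An elementary divergence argument. -/
lemma no_growth (q : ℕ → ℝ) (P s : ℕ) (B : ℝ) (hs : 1 ≤ s) (hq0 : 0 < q P)
    (hmono : ∀ p, q p ≤ q (p + 1)) (hB : ∀ p, q p ≤ B)
    (hstep : ∀ p, P ≤ p → q (p + 1) + q p / (4 * ((p : ℝ) + s)) ≤ q (p + 2)) : False := by
  have hmono' : ∀ k, q P ≤ q (P + k) := by
    intro k
    induction k with
    | zero => exact le_rfl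
    | succ k ih => exact ih.trans (hmono _)
  have hs' : (1 : ℝ) ≤ s := by exact_mod_cast hs
  have hP0 : (0 : ℝ) ≤ P := Nat.cast_nonneg _
  have hc : (0 : ℝ) < (P : ℝ) + s := by linarith
  have hlow : ∀ k, q P / (4 * ((P : ℝ) + s)) * ∑ i ∈ Finset.range k, (1 : ℝ) / ((i : ℝ) + 1) ≤
      q (P + 1 + k) := by
    intro k
    induction k with
    | zero =>
      simp only [Finset.range_zero, Finset.sum_empty, mul_zero, add_zero]
      exact hq0.le.trans (hmono _)
    | succ k ih =>
      rw [Finset.sum_range_succ, mul_add]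
      have h1 := hstep (P + k) (by omega)
      have h2 : q (P + k + 1) = q (P + 1 + k) := by congr 1; omega
      have h3 : q (P + k + 2) = q (P + 1 + (k + 1)) := by congr 1; omega
      rw [h2, h3] at h1
      have hk0 : (0 : ℝ) ≤ k := Nat.cast_nonneg _
      have h4 : q P / (4 * ((P : ℝ) + s)) * ((1 : ℝ) / ((k : ℝ) + 1)) ≤
          q (P + k) / (4 * (((P + k : ℕ) : ℝ) + s)) := by
        rw [div_mul_div_comm, mul_one]
        apply div_le_div₀ (hq0.le.trans (hmono' k)) (hmono' k)
        · push_cast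
          linarith
        · push_cast
          nlinarith
      linarith
  have hdiv := Real.tendsto_sum_range_one_div_nat_succ_atTop
  have hpos : 0 < q P / (4 * ((P : ℝ) + s)) := div_pos hq0 (by linarith)
  have h5 := hdiv.const_mul_atTop hpos
  obtain ⟨k, hk⟩ := (h5.eventually (Filter.eventually_gt_atTop B)).exists
  exact absurd (hk.trans_le (hlow k)) (not_lt.2 (hB _))

variable {V : Type} [Fintype V]

lemma exists_eq [Nonempty V] (G : SimpleGraph V) (j : ℕ) :
    ∃ p, Pl (J G p) (p + j) = Pu (J G p) (p + j) := by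
  classical
  by_contra hcon
  push Not at hcon
  have hlt : ∀ p, Pl (J G p) (p + j) < Pu (J G p) (p + j) := fun p =>
    lt_of_le_of_ne (Pl_le_Pu _ _) (hcon p)
  -- `G` is `j`-colourable
  have hG : G.Colorable j := by
    have h0 := (Nat.zero_le _).trans_lt (hlt 0)
    unfold Pu ncol at h0
    rw [Finset.card_pos] at h0
    obtain ⟨f, hf⟩ := h0
    rw [mem_cols] at hf
    refine ⟨SimpleGraph.Coloring.mk (fun v => (⟨f (Sum.inl v), ?_⟩ : Fin j)) ?_⟩
    · have := hf.1 (Sum.inl v)
      rw [zero_add, Finset.mem_range] at this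
      exact this
    · intro u v huv he
      exact hf.2 (Sum.inl u) (Sum.inl v) huv (congrArg Fin.val he)
  set n := Fintype.card V with hn
  set P := n ^ 2 + M0 n j with hP
  -- factorials
  have hT : ∀ p, (Pu (J G p) (p + j) : ℝ) / (p + j).factorial =
      (Pu (J G 0) (0 + j) : ℝ) / (0 + j).factorial := by
    intro p
    induction p with
    | zero => rfl
    | succ p ih =>
      rw [← ih]
      have h1 : p + 1 + j = (p + j) + 1 := by omega
      rw [h1, Pu_succ, Nat.factorial_succ]
      push_cast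
      have h2 : ((p : ℝ) + j + 1) ≠ 0 := by positivity
      rw [mul_div_mul_left _ _ h2]
  have hmono : ∀ p, (Pl (J G p) (p + j) : ℝ) / (p + j).factorial ≤
      (Pl (J G (p + 1)) (p + 1 + j) : ℝ) / (p + 1 + j).factorial := by
    intro p
    have h1 : p + 1 + j = (p + j) + 1 := by omega
    rw [h1, Nat.factorial_succ]
    have h2 : ((p + j + 1 : ℕ) : ℝ) ≠ 0 := by positivity
    rw [← mul_div_mul_left _ _ h2]
    push_cast
    gcongr
    exact_mod_cast Pl_succ G p (p + j)
  have hB : ∀ p, (Pl (J G p) (p + j) : ℝ) / (p + j).factorial ≤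
      (Pu (J G 0) (0 + j) : ℝ) / (0 + j).factorial := by
    intro p
    rw [← hT p]
    gcongr
    exact Pl_le_Pu _ _
  have hpos : 0 < (Pl (J G P) (P + j) : ℝ) / (P + j).factorial := by
    apply div_pos _ (by positivity)
    obtain ⟨L, hL, hmin⟩ := exists_min (J G P) (P + j)
    rw [← hmin]
    have := choosable G j P hG (by rw [← hn]; omega) L hL
    exact_mod_cast this
  refine no_growth (fun p => (Pl (J G p) (p + j) : ℝ) / (p + j).factorial) P (j + 1)
    ((Pu (J G 0) (0 + j) : ℝ) / (0 + j).factorial) (by omega) hpos hmono hB ?_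
  intro p hp
  -- the key inequality
  have hkey : 4 * ((p + j + 2) * Pl (J G (p + 1)) (p + j + 1)) + (p + j + 2) * Pl (J G p) (p + j) ≤
      4 * Pl (J G (p + 2)) (p + j + 2) := by
    obtain ⟨L, hL, hmin⟩ := exists_min (J G (p + 2)) (p + j + 2)
    have hA := stepA G p (p + j) L hL
    rw [hmin] at hA
    set S := ∑ i : Fin (p + 2), (L (Sum.inr (Fin.last _)) \ L (Sum.inr i)).card with hS
    have hbig : p + j + 2 < 4 * S := by
      by_contra hsmall
      push Not at hsmall
      have he : p + 2 + j = p + j + 2 := by omega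
      have h1 := perturb G (p + 2) j L (L (Sum.inr (Fin.last _))) (by rw [hL, he])
        (fun w => by rw [hL, he]) (by rw [he]; exact hsmall) (by
          rw [← hn]
          have : M0 n j ≤ P := by omega
          omega) (by omega)
      have h2 : Pu (J G (p + 2)) (p + 2 + j) ≤ Pl (J G (p + 2)) (p + 2 + j) := by
        unfold Pu
        rw [ncol_const_eq (J G (p + 2)) (R := Finset.range (p + 2 + j))
          (R' := L (Sum.inr (Fin.last _))) (by rw [Finset.card_range, hL, he])]
        rw [he, ← hmin]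
        exact h1
      exact absurd (hlt (p + 2)) (not_lt.2 h2)
    have h3 : (p + j + 2) * Pl (J G p) (p + j) ≤ 4 * (S * Pl (J G p) (p + j)) := by
      rw [← mul_assoc]
      exact Nat.mul_le_mul_right _ hbig.le
    omega
  have hkey' : 4 * (((p : ℝ) + j + 2) * (Pl (J G (p + 1)) (p + j + 1) : ℝ)) +
      ((p : ℝ) + j + 2) * (Pl (J G p) (p + j) : ℝ) ≤ 4 * (Pl (J G (p + 2)) (p + j + 2) : ℝ) := by
    exact_mod_cast hkey
  have e1 : p + 1 + j = p + j + 1 := by omega
  have e2 : p + 2 + j = p + j + 2 := by omega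
  simp only [e1, e2]
  rw [Nat.factorial_succ (p + j + 1), Nat.factorial_succ (p + j)]
  have hf : (0 : ℝ) < (p + j).factorial := by positivity
  have hpj : (0 : ℝ) < (p : ℝ) + j + 1 := by positivity
  have hpj2 : (0 : ℝ) < (p : ℝ) + j + 2 := by positivity
  push_cast
  have e3 : ((p : ℝ) + j + 1 + 1) = (p : ℝ) + j + 2 := by ring
  have e4 : ((p : ℝ) + (j + 1)) = (p : ℝ) + j + 1 := by ring
  rw [e3, e4, div_div, div_add_div _ _ (by positivity) (by positivity), div_le_div_iff₀
    (by positivity) (by positivity)]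
  have h7 := mul_le_mul_of_nonneg_left hkey'
    (show (0 : ℝ) ≤ ((p : ℝ) + j + 1) * (p + j).factorial * (((p : ℝ) + j + 1) * (p + j).factorial)
      by positivity)
  nlinarith [h7]

/-- Equality is inherited upwards. -/
lemma eq_succ (G : SimpleGraph V) (p m : ℕ) (h : Pl (J G p) m = Pu (J G p) m) :
    Pl (J G (p + 1)) (m + 1) = Pu (J G (p + 1)) (m + 1) := by
  apply le_antisymm (Pl_le_Pu _ _)
  rw [Pu_succ, ← h]
  exact Pl_succ G p m

lemma eq_add (G : SimpleGraph V) (p m : ℕ) (h : Pl (J G p) m = Pu (J G p) m) (k : ℕ) :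
    Pl (J G (p + k)) (m + k) = Pu (J G (p + k)) (m + k) := by
  induction k with
  | zero => exact h
  | succ k ih => exact eq_succ G (p + k) (m + k) ih

end Pool.Agent.X73.LCJ
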