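import Pool.Agent.X73.LCJ.Perturb

set_option autoImplicit false

namespace Pool.Agent.X73.LCJ

open Finset

/-- The join `G ∨ K_p` on the vertex set `V ⊕ Fin p`: two vertices of `V` are adjacent if they are
adjacent in `G`, and a vertex of `Fin p` is adjacent to all other vertices. -/
def J {V : Type} (G : SimpleGraph V) (p : ℕ) : SimpleGraph (V ⊕ Fin p) where
  Adj x y := match x, y with
    | Sum.inl a, Sum.inl b => G.Adj a b
    | Sum.inr i, Sum.inr k => i ≠ k
    | Sum.inl _, Sum.inr _ => True
    | Sum.inr _, Sum.inl _ => True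
  symm := ⟨by
    intro x y h
    rcases x with a | i <;> rcases y with b | k
    · exact G.adj_symm h
    · trivial
    · trivial
    · exact Ne.symm h⟩
  loopless := ⟨by
    intro x h
    rcases x with a | i
    · exact G.irrefl h
    · exact h rfl⟩

variable {V : Type}

lemma J_inr_adj (G : SimpleGraph V) {p : ℕ} (i : Fin p) (w : V ⊕ Fin p) (h : w ≠ Sum.inr i) :
    (J G p).Adj w (Sum.inr i) := by
  rcases w with a | k
  · trivial
  · intro h'
    exact h (by rw [h'])

/-- The clique side. -/
lemma J_clique (G : SimpleGraph V) {p : ℕ} (w : V ⊕ Fin p) :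
    ∃ Q : Finset (V ⊕ Fin p), (∀ x ∈ Q, x ≠ w ∧ ∃ i, x = Sum.inr i) ∧
      (∀ x ∈ Q, (J G p).Adj w x) ∧ (∀ x ∈ Q, ∀ y ∈ Q, x ≠ y → (J G p).Adj x y) ∧
      p - 1 ≤ Q.card := by
  classical
  refine ⟨((Finset.univ : Finset (Fin p)).image Sum.inr).erase w, ?_, ?_, ?_, ?_⟩
  · intro x hx
    rw [Finset.mem_erase, Finset.mem_image] at hx
    obtain ⟨h1, i, -, rfl⟩ := hx
    exact ⟨h1, i, rfl⟩
  · intro x hx
    rw [Finset.mem_erase, Finset.mem_image] at hx
    obtain ⟨h1, i, -, rfl⟩ := hx
    exact J_inr_adj G i w h1.symm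
  · intro x hx y hy hxy
    rw [Finset.mem_erase, Finset.mem_image] at hx hy
    obtain ⟨h1, i, -, rfl⟩ := hx
    obtain ⟨h2, k, -, rfl⟩ := hy
    exact J_inr_adj G k _ hxy
  · have h1 : ((Finset.univ : Finset (Fin p)).image (Sum.inr : Fin p → V ⊕ Fin p)).card = p := by
      rw [Finset.card_image_of_injective _ Sum.inr_injective]
      simp
    have h2 := Finset.pred_card_le_card_erase
      (s := (Finset.univ : Finset (Fin p)).image (Sum.inr : Fin p → V ⊕ Fin p)) (a := w)
    omega

lemma card_sdiff_eq {A R : Finset ℕ} (h : A.card = R.card) : (A \ R).card = (R \ A).card := by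
  have h1 := Finset.card_sdiff_add_card_inter A R
  have h2 := Finset.card_sdiff_add_card_inter R A
  rw [Finset.inter_comm R A] at h2
  omega

variable [Fintype V]

/-- The threshold. -/
def M0 (n j : ℕ) : ℕ := 4 * n * (n + 2 * (j + 1) ^ n) + 2 * (j + 1)

lemma arith_small {m D e j Nn N1 S X : ℕ} (he : m = D + e) (hej : j + 1 ≤ e)
    (h8 : e * Nn ≤ m * N1) (h7 : D * (e * Nn) ≤ (j + 1) * m * S) (h2 : N1 + S ≤ X) :
    Nn ≤ X := by
  have h9 : (j + 1) * m * Nn ≤ (j + 1) * m * X := by
    calc (j + 1) * m * Nn = (j + 1) * (D + e) * Nn := by rw [he]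
      _ = (j + 1) * (e * Nn) + D * ((j + 1) * Nn) := by ring
      _ ≤ (j + 1) * (e * Nn) + D * (e * Nn) := by
          gcongr
      _ ≤ (j + 1) * (m * N1) + (j + 1) * m * S :=
          Nat.add_le_add (Nat.mul_le_mul_left (j + 1) h8) h7
      _ = (j + 1) * m * (N1 + S) := by ring
      _ ≤ (j + 1) * m * X := Nat.mul_le_mul_left _ h2
  exact Nat.le_of_mul_le_mul_left h9 (Nat.mul_pos (by omega) (by omega))

/-- If the lists on the clique are close to `R`, then there are at least as many colourings as in
the case that all lists are `R`. -/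
lemma perturb [Nonempty V] (G : SimpleGraph V) (p j : ℕ) (L : V ⊕ Fin p → Finset ℕ) (R : Finset ℕ)
    (hR : R.card = p + j) (hL : ∀ w, (L w).card = p + j)
    (hK : 4 * ∑ i : Fin p, (R \ L (Sum.inr i)).card ≤ p + j)
    (hp : M0 (Fintype.card V) j ≤ p + j) (hp1 : 1 ≤ p) :
    ncol (J G p) (fun _ => R) ≤ ncol (J G p) L := by
  classical
  set n := Fintype.card V with hn
  have hn1 : 1 ≤ n := Fintype.card_pos
  set m := p + j with hm
  unfold M0 at hp
  have hpow : 1 ≤ (j + 1) ^ n := Nat.one_le_pow _ _ (by omega)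
  by_cases hbig : ∃ v : V, m < 4 * n * (R \ L (Sum.inl v)).card
  · -- big case
    obtain ⟨v1, hv1⟩ := hbig
    obtain ⟨P, hPr, hPl⟩ : ∃ P : V ⊕ Fin p → Prop, (∀ i : Fin p, P (Sum.inr i)) ∧
        ∀ v : V, P (Sum.inl v) ↔ 4 * n * (R \ L (Sum.inl v)).card ≤ m :=
      ⟨Sum.elim (fun v => 4 * n * (R \ L (Sum.inl v)).card ≤ m) (fun _ => True),
        fun _ => trivial, fun _ => Iff.rfl⟩
    have hcard : Nat.card {w // ¬ P w} ≤ n := by
      have : Function.Injective (fun v : V => v) := fun _ _ h => h
      have hsurj : ∀ w : {w // ¬ P w}, ∃ v : V, Sum.inl v = w.1 := by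
        rintro ⟨w, hw⟩
        rcases w with v | i
        · exact ⟨v, rfl⟩
        · exact absurd (hPr i) hw
      choose φ hφ using hsurj
      rw [Nat.card_eq_fintype_card]
      refine (Fintype.card_le_of_injective φ ?_).trans hn.ge
      intro w w' h
      apply Subtype.ext
      rw [← hφ, ← hφ, h]
    have hcard2 : Fintype.card (V ⊕ Fin p) ≤ n + Nat.card {w // P w} := by
      have h8 : Nat.card {w // P w} = Fintype.card {w // P w} := Nat.card_eq_fintype_card
      have h9 := Fintype.card_subtype_compl P
      have h10 : Fintype.card {w // P w} ≤ Fintype.card (V ⊕ Fin p) := Fintype.card_subtype_le _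
      have h11 : Nat.card {w // ¬ P w} = Fintype.card {w // ¬ P w} := Nat.card_eq_fintype_card
      omega
    have h1 := restrict_bound (J G p) R P (p - 1) n hcard2 (by
      intro w hw
      obtain ⟨Q, hQ1, hQ2, hQ3, hQ4⟩ := J_clique G w
      refine ⟨Q, fun x hx => ?_, hQ2, hQ3, hQ4⟩
      obtain ⟨-, i, rfl⟩ := hQ1 x hx
      exact hPr i) (by omega)
    have hRq : R.card - (p - 1) = j + 1 := by omega
    rw [hRq] at h1
    have h2 := outside_big (J G p) L R P n (m / (4 * n)) hcard (Sum.inl v1) (by
      rw [hPl]; omega) (by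
      intro w hw
      rcases w with v | i
      · rw [hPl] at hw
        have hc := card_sdiff_eq (A := L (Sum.inl v)) (R := R) (by rw [hL, hR])
        rw [hc]
        have : m / (4 * n) * (4 * n) ≤ m := Nat.div_mul_le_self _ _
        by_contra hcon
        have h3 : (R \ L (Sum.inl v)).card * (4 * n) ≤ m / (4 * n) * (4 * n) :=
          Nat.mul_le_mul_right _ (by omega)
        have h4 : 4 * n * (R \ L (Sum.inl v)).card = (R \ L (Sum.inl v)).card * (4 * n) :=
          mul_comm _ _
        omega
      · exact absurd (hPr i) hw)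
    have h3 := respect ((J G p).comap (Subtype.val : {w // P w} → _)) (fun x => L x.1) R
    rw [hR] at h3
    have hD : 2 * ∑ w : {w // P w}, (R \ L w.1).card ≤ m := by
      have e1 : ∑ w : {w // P w}, (R \ L w.1).card =
          ∑ w ∈ Finset.univ.filter P, (R \ L w).card := by
        rw [Finset.sum_subtype (p := P)]
        intro x
        simp
      rw [e1, Finset.sum_filter, Fintype.sum_sum_type]
      have e2 : ∑ v : V, (if P (Sum.inl v) then (R \ L (Sum.inl v)).card else 0) * (4 * n) ≤
          ∑ _v : V, m := by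
        refine Finset.sum_le_sum fun v _ => ?_
        split_ifs with h
        · rw [hPl] at h
          rw [mul_comm]
          exact h
        · omega
      rw [← Finset.sum_mul, Finset.sum_const, Finset.card_univ, ← hn, smul_eq_mul] at e2
      have e3 : (∑ v : V, (if P (Sum.inl v) then (R \ L (Sum.inl v)).card else 0)) * 4 ≤ m := by
        have : n * ((∑ v : V, (if P (Sum.inl v) then (R \ L (Sum.inl v)).card else 0)) * 4) ≤
          n * m := by
          calc _ = (∑ v : V, (if P (Sum.inl v) then (R \ L (Sum.inl v)).card else 0)) * (4 * n) := by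
                ring
            _ ≤ _ := e2
        exact Nat.le_of_mul_le_mul_left this (by omega)
      have e4 : ∑ i : Fin p, (if P (Sum.inr i) then (R \ L (Sum.inr i)).card else 0) =
          ∑ i : Fin p, (R \ L (Sum.inr i)).card :=
        Finset.sum_congr rfl fun i _ => if_pos (hPr i)
      rw [e4]
      omega
    set D := ∑ w : {w // P w}, (R \ L w.1).card with hDdef
    set a := ncol ((J G p).comap (Subtype.val : {w // P w} → _)) (fun x => L x.1 ∩ R) with ha
    set r := ncol ((J G p).comap (Subtype.val : {w // P w} → _)) (fun _ => R) with hr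
    have hmpos : 0 < m := by omega
    have h4 : r ≤ 2 * a := by
      have e5 : 2 * (m * r) ≤ 2 * (m * a) + m * r := by
        have : 2 * (D * r) ≤ m * r := by
          rw [← mul_assoc]
          exact Nat.mul_le_mul_right _ hD
        have h3' : m * r ≤ m * a + D * r := h3
        omega
      have e6 : m * r ≤ m * (2 * a) := by
        have : m * (2 * a) = 2 * (m * a) := by ring
        omega
      exact Nat.le_of_mul_le_mul_left e6 hmpos
    have h5 : 2 * (j + 1) ^ n ≤ m / (4 * n) - n := by
      have : n + 2 * (j + 1) ^ n ≤ m / (4 * n) := by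
        rw [Nat.le_div_iff_mul_le (by omega)]
        have : (n + 2 * (j + 1) ^ n) * (4 * n) = 4 * n * (n + 2 * (j + 1) ^ n) := mul_comm _ _
        omega
      omega
    calc ncol (J G p) (fun _ => R) ≤ (j + 1) ^ n * r := h1
      _ ≤ (j + 1) ^ n * (2 * a) := Nat.mul_le_mul_left _ h4
      _ = 2 * (j + 1) ^ n * a := by ring
      _ ≤ (m / (4 * n) - n) * a := Nat.mul_le_mul_right _ h5
      _ ≤ _ := h2
  · -- small case
    push Not at hbig
    set D := ∑ w, (R \ L w).card with hDdef
    have hD : 2 * D ≤ m := by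
      rw [hDdef, Fintype.sum_sum_type]
      have e2 : ∑ v : V, (R \ L (Sum.inl v)).card * (4 * n) ≤ ∑ _v : V, m := by
        refine Finset.sum_le_sum fun v _ => ?_
        rw [mul_comm]
        exact hbig v
      rw [← Finset.sum_mul, Finset.sum_const, Finset.card_univ, ← hn, smul_eq_mul] at e2
      have e3 : (∑ v : V, (R \ L (Sum.inl v)).card) * 4 ≤ m := by
        have : n * ((∑ v : V, (R \ L (Sum.inl v)).card) * 4) ≤ n * m := by
          calc _ = (∑ v : V, (R \ L (Sum.inl v)).card) * (4 * n) := by ring
            _ ≤ _ := e2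
        exact Nat.le_of_mul_le_mul_left this (by omega)
      omega
    have h1 := respect (J G p) L R
    rw [hR] at h1
    have h2 := outside_sum (J G p) L R
    obtain ⟨e, he⟩ : ∃ e, m = D + e := ⟨m - D, by omega⟩
    have hej : j + 1 ≤ e := by omega
    have hw : ∀ w : V ⊕ Fin p, e * ncol (J G p) (fun _ => R) ≤
        (j + 1) * m * ncol ((J G p).comap (Subtype.val : {x // x ≠ w} → _)) (fun x => L x.1 ∩ R) := by
      intro w
      have h3 := respect ((J G p).comap (Subtype.val : {x // x ≠ w} → _)) (fun x => L x.1) R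
      rw [hR] at h3
      have hcard : Fintype.card (V ⊕ Fin p) ≤ 1 + Nat.card {x // x ≠ w} := by
        rw [Nat.card_eq_fintype_card, Fintype.card_subtype_compl, Fintype.card_subtype_eq]
        omega
      have h4 := restrict_bound (J G p) R (fun x => x ≠ w) (p - 1) 1 hcard (by
        intro x hx
        push Not at hx
        subst hx
        obtain ⟨Q, hQ1, hQ2, hQ3, hQ4⟩ := J_clique G x
        exact ⟨Q, fun y hy => (hQ1 y hy).1, hQ2, hQ3, hQ4⟩) (by omega)
      have hRq : R.card - (p - 1) = j + 1 := by omega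
      rw [hRq, pow_one] at h4
      set r := ncol ((J G p).comap (Subtype.val : {x // x ≠ w} → _)) (fun _ => R) with hr
      set a := ncol ((J G p).comap (Subtype.val : {x // x ≠ w} → _)) (fun x => L x.1 ∩ R) with ha
      have hDw : ∑ x : {x // x ≠ w}, (R \ L x.1).card ≤ D := by
        have e1 : ∑ x : {x // x ≠ w}, (R \ L x.1).card =
            ∑ x ∈ Finset.univ.filter (fun x => x ≠ w), (R \ L x).card := by
          rw [Finset.sum_subtype (p := fun x => x ≠ w)]
          intro x
          simp
        rw [e1]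
        exact Finset.sum_le_sum_of_subset (Finset.subset_univ _)
      have h5 : m * r ≤ m * a + D * r := h3.trans (by
        have := Nat.mul_le_mul_right r hDw
        omega)
      have h6 : e * r ≤ m * a := by
        have : m * r = D * r + e * r := by rw [he]; ring
        omega
      calc e * ncol (J G p) (fun _ => R) ≤ e * ((j + 1) * r) := Nat.mul_le_mul_left _ h4
        _ = (j + 1) * (e * r) := by ring
        _ ≤ (j + 1) * (m * a) := Nat.mul_le_mul_left _ h6
        _ = (j + 1) * m * a := by ring
    have h7 : D * (e * ncol (J G p) (fun _ => R)) ≤ (j + 1) * m * ∑ w, (L w \ R).card *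
        ncol ((J G p).comap (Subtype.val : {x // x ≠ w} → _)) (fun x => L x.1 ∩ R) := by
      rw [hDdef, Finset.sum_mul, Finset.mul_sum]
      refine Finset.sum_le_sum fun w _ => ?_
      have hc := card_sdiff_eq (A := L w) (R := R) (by rw [hL, hR])
      calc (R \ L w).card * (e * ncol (J G p) (fun _ => R)) ≤ (R \ L w).card * ((j + 1) * m *
          ncol ((J G p).comap (Subtype.val : {x // x ≠ w} → _)) (fun x => L x.1 ∩ R)) :=
            Nat.mul_le_mul_left _ (hw w)
        _ = _ := by rw [hc]; ring
    have h8 : e * ncol (J G p) (fun _ => R) ≤ m * ncol (J G p) (fun w => L w ∩ R) := by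
      have h10 : m * ncol (J G p) (fun _ => R) = D * ncol (J G p) (fun _ => R) +
          e * ncol (J G p) (fun _ => R) := by
        rw [he]
        ring
      have h11 : m * ncol (J G p) (fun _ => R) ≤ m * ncol (J G p) (fun w => L w ∩ R) +
        D * ncol (J G p) (fun _ => R) := h1
      omega
    exact arith_small he hej h8 h7 h2

end Pool.Agent.X73.LCJ
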