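import Pool.Agent.X73.LCJ.Basic

set_option autoImplicit false

namespace Pool.Agent.X73.LCJ

open Finset

section

variable {W : Type} [Fintype W]

open Classical in
lemma fibre_swap (H : SimpleGraph W) (R : Finset ℕ) (w : W) {c c' : ℕ} (hc : c ∈ R) (hc' : c' ∈ R) :
    ((cols H fun _ => R).filter fun f => f w = c).card ≤
      ((cols H fun _ => R).filter fun f => f w = c').card := by
  apply Finset.card_le_card_of_injOn (fun f => Equiv.swap c c' ∘ f)
  · intro f hf
    simp only [Finset.coe_filter, Set.mem_ofPred_eq, mem_cols] at hf ⊢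
    obtain ⟨⟨h1, h2⟩, h3⟩ := hf
    refine ⟨⟨fun u => ?_, fun u v huv => ?_⟩, ?_⟩
    · simp only [Function.comp_apply]
      rw [Equiv.swap_apply_def]
      split_ifs
      · exact hc'
      · exact hc
      · exact h1 u
    · simp only [Function.comp_apply, ne_eq, EmbeddingLike.apply_eq_iff_eq]
      exact h2 u v huv
    · simp only [Function.comp_apply, h3, Equiv.swap_apply_left]
  · intro f _ g _ hfg
    funext u
    have := congrFun hfg u
    simpa using this

open Classical in
lemma fibre_card (H : SimpleGraph W) (R : Finset ℕ) (w : W) {c : ℕ} (hc : c ∈ R) :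
    R.card * ((cols H fun _ => R).filter fun f => f w = c).card = ncol H fun _ => R := by
  have h1 : ∀ c' ∈ R, ((cols H fun _ => R).filter fun f => f w = c').card =
      ((cols H fun _ => R).filter fun f => f w = c).card := fun c' hc' =>
    le_antisymm (fibre_swap H R w hc' hc) (fibre_swap H R w hc hc')
  unfold ncol
  rw [Finset.card_eq_sum_card_fiberwise (f := fun f => f w) (t := R)
    (fun f hf => (mem_cols.1 hf).1 w), Finset.sum_congr rfl h1, Finset.sum_const, smul_eq_mul]

/-- Most colourings from `R` respect the lists. -/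
lemma respect (H : SimpleGraph W) (L : W → Finset ℕ) (R : Finset ℕ) :
    R.card * ncol H (fun _ => R) ≤ R.card * ncol H (fun w => L w ∩ R) +
      (∑ w, (R \ L w).card) * ncol H (fun _ => R) := by
  classical
  have hsub : cols H (fun _ => R) ⊆ cols H (fun w => L w ∩ R) ∪
      Finset.univ.biUnion fun w => (R \ L w).biUnion fun c =>
        (cols H fun _ => R).filter fun f => f w = c := by
    intro f hf
    rw [Finset.mem_union]
    by_cases h : ∀ w, f w ∈ L w
    · left
      rw [mem_cols] at hf ⊢
      exact ⟨fun w => Finset.mem_inter.2 ⟨h w, hf.1 w⟩, hf.2⟩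
    · right
      push Not at h
      obtain ⟨w, hw⟩ := h
      rw [Finset.mem_biUnion]
      refine ⟨w, Finset.mem_univ _, ?_⟩
      rw [Finset.mem_biUnion]
      refine ⟨f w, Finset.mem_sdiff.2 ⟨(mem_cols.1 hf).1 w, hw⟩, ?_⟩
      rw [Finset.mem_filter]
      exact ⟨hf, rfl⟩
  have h1 : ncol H (fun _ => R) ≤ ncol H (fun w => L w ∩ R) +
      ∑ w, ∑ c ∈ R \ L w, ((cols H fun _ => R).filter fun f => f w = c).card := by
    refine (Finset.card_le_card hsub).trans ((Finset.card_union_le _ _).trans ?_)
    unfold ncol
    gcongr
    refine Finset.card_biUnion_le.trans (Finset.sum_le_sum fun w _ => ?_)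
    exact Finset.card_biUnion_le
  refine (Nat.mul_le_mul_left R.card h1).trans (le_of_eq ?_)
  rw [mul_add, Finset.mul_sum, Finset.sum_mul]
  congr 1
  refine Finset.sum_congr rfl fun w _ => ?_
  rw [Finset.mul_sum, Finset.sum_congr rfl fun c hc =>
    fibre_card H R w (Finset.mem_sdiff.1 hc).1, Finset.sum_const, smul_eq_mul]

/-- The colourings of `H` from `R` restrict to an induced subgraph with small fibres. -/
lemma restrict_bound (H : SimpleGraph W) (R : Finset ℕ) (P : W → Prop) (q b : ℕ)
    (hb : Fintype.card W ≤ b + Nat.card {w // P w}) [Fintype {w // P w}]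
    (hQ : ∀ w, ¬ P w → ∃ Q : Finset W, (∀ x ∈ Q, P x) ∧ (∀ x ∈ Q, H.Adj w x) ∧
      (∀ x ∈ Q, ∀ y ∈ Q, x ≠ y → H.Adj x y) ∧ q ≤ Q.card) (hq : q < R.card) :
    ncol H (fun _ => R) ≤ (R.card - q) ^ b *
      ncol (H.comap (Subtype.val : {w // P w} → W)) (fun _ => R) := by
  classical
  unfold ncol
  apply Finset.card_le_mul_card_image_of_maps_to (f := fun f (x : {w // P w}) => f x.1)
  · intro f hf
    rw [mem_cols] at hf ⊢
    exact ⟨fun x => hf.1 x.1, fun u v huv => hf.2 u.1 v.1 huv⟩
  · intro g hg
    rcases ((cols H fun _ => R).filter fun f => (fun (x : {w // P w}) => f x.1) = g).eq_empty_or_nonempty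
      with he | ⟨f0, hf0⟩
    · rw [he]
      simp
    · rw [Finset.mem_filter, mem_cols] at hf0
      obtain ⟨⟨h1, h2⟩, h3⟩ := hf0
      choose Q hQP hQadj hQcl hQc using hQ
      have hcardle : ((cols H fun _ => R).filter
          fun f => (fun (x : {w // P w}) => f x.1) = g).card ≤
          (Fintype.piFinset fun w : {w // ¬ P w} => R \ (Q w.1 w.2).image f0).card := by
        apply Finset.card_le_card_of_injOn (fun f w => f w.1)
        · intro f hf
          simp only [Finset.coe_filter, Set.mem_ofPred_eq, mem_cols] at hf
          obtain ⟨⟨h4, h5⟩, h6⟩ := hf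
          rw [Finset.mem_coe, Fintype.mem_piFinset]
          intro w
          rw [Finset.mem_sdiff, Finset.mem_image]
          refine ⟨h4 w.1, ?_⟩
          rintro ⟨x, hx, hxw⟩
          have h7 : f x = f0 x := by
            have := congrFun (h6.trans h3.symm) ⟨x, hQP _ _ x hx⟩
            exact this
          exact h5 _ _ (hQadj _ _ x hx) (by rw [h7, hxw])
        · intro f hf f' hf' hff
          simp only [Finset.coe_filter, Set.mem_ofPred_eq, mem_cols] at hf hf'
          funext w
          by_cases hw : P w
          · exact congrFun (hf.2.trans hf'.2.symm) ⟨w, hw⟩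
          · exact congrFun hff ⟨w, hw⟩
      refine hcardle.trans ?_
      rw [Fintype.card_piFinset]
      have hc : Fintype.card {w // ¬ P w} ≤ b := by
        have h8 : Nat.card {w // P w} = Fintype.card {w // P w} := Nat.card_eq_fintype_card
        have h9 := Fintype.card_subtype_compl P
        have h10 : Fintype.card {w // P w} ≤ Fintype.card W := Fintype.card_subtype_le _
        omega
      calc ∏ w : {w // ¬ P w}, (R \ (Q w.1 w.2).image f0).card
          ≤ ∏ _w : {w // ¬ P w}, (R.card - q) := by
            refine Finset.prod_le_prod' fun w _ => ?_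
            have hsub : (Q w.1 w.2).image f0 ⊆ R := by
              intro c hc
              rw [Finset.mem_image] at hc
              obtain ⟨x, -, rfl⟩ := hc
              exact h1 x
            rw [Finset.card_sdiff_of_subset hsub]
            have : (Q w.1 w.2).card = ((Q w.1 w.2).image f0).card := by
              rw [Finset.card_image_of_injOn]
              intro x hx y hy hxy
              by_contra hne
              exact h2 x y (hQcl _ _ x hx y hy hne) hxy
            have := hQc w.1 w.2
            omega
        _ = (R.card - q) ^ Fintype.card {w // ¬ P w} := by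
            rw [Finset.prod_const, Finset.card_univ]
        _ ≤ (R.card - q) ^ b := Nat.pow_le_pow_right (by omega) hc

/-- Colourings in which exactly one vertex uses a colour outside `R`. -/
lemma outside_sum [∀ w : W, Fintype {x // x ≠ w}] (H : SimpleGraph W) (L : W → Finset ℕ)
    (R : Finset ℕ) :
    ncol H (fun w => L w ∩ R) + ∑ w, (L w \ R).card *
      ncol (H.comap (Subtype.val : {x // x ≠ w} → W)) (fun x => L x.1 ∩ R) ≤ ncol H L := by
  classical
  have key : ∀ I : Finset W, ncol H (fun w => if w ∈ I then L w ∩ R else L w) +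
      ∑ w ∈ I, (L w \ R).card *
        ncol (H.comap (Subtype.val : {x // x ≠ w} → W)) (fun x => L x.1 ∩ R) ≤ ncol H L := by
    intro I
    induction I using Finset.induction_on with
    | empty => simp
    | insert w0 I hw0 ih =>
      rw [Finset.sum_insert hw0]
      have hs := ncol_split H (fun w => if w ∈ I then L w ∩ R else L w) w0
        (Subtype.val : {x // x ≠ w0} → W) Subtype.val_injective
        (fun w => ⟨fun h => ⟨⟨w, h⟩, rfl⟩, fun ⟨w', hw'⟩ => hw' ▸ w'.2⟩)
        (L w0 ∩ R) (by rw [if_neg hw0]; exact Finset.inter_subset_left)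
        (fun x => L x.1 ∩ R) (by
          intro c hc w'
          rw [if_neg hw0] at hc
          have hcR : c ∉ R := by
            intro hcR
            rw [Finset.mem_sdiff] at hc
            exact hc.2 (Finset.mem_inter.2 ⟨hc.1, hcR⟩)
          intro d hd
          rw [Finset.mem_inter] at hd
          rw [Finset.mem_erase]
          refine ⟨fun h => hcR (h ▸ hd.2), ?_⟩
          split_ifs
          · exact Finset.mem_inter.2 hd
          · exact hd.1)
      have hup : Function.update (fun w => if w ∈ I then L w ∩ R else L w) w0 (L w0 ∩ R) =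
          fun w => if w ∈ insert w0 I then L w ∩ R else L w := by
        funext w
        by_cases h : w = w0
        · subst h
          rw [Function.update_self, if_pos (Finset.mem_insert_self _ _)]
        · rw [Function.update_of_ne h]
          have : w ∈ insert w0 I ↔ w ∈ I := by
            rw [Finset.mem_insert]
            exact ⟨fun h' => h'.resolve_left h, Or.inr⟩
          simp only [this]
      rw [hup, if_neg hw0] at hs
      have : (L w0 \ (L w0 ∩ R)) = L w0 \ R := Finset.sdiff_inter_self_left _ _
      rw [this] at hs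
      omega
  have := key Finset.univ
  simpa using this

/-- Colourings in which all vertices outside `P` use colours outside `R`. -/
lemma outside_big (H : SimpleGraph W) (L : W → Finset ℕ) (R : Finset ℕ) (P : W → Prop)
    [Fintype {w // P w}] (b t : ℕ) (hb : Nat.card {w // ¬ P w} ≤ b) (w1 : W) (hw1 : ¬ P w1)
    (ht : ∀ w, ¬ P w → t ≤ (L w \ R).card) :
    (t - b) * ncol (H.comap (Subtype.val : {w // P w} → W)) (fun x => L x.1 ∩ R) ≤ ncol H L := by
  classical
  rcases le_or_gt t b with htb | htb
  · rw [Nat.sub_eq_zero_of_le htb, zero_mul]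
    exact Nat.zero_le _
  rw [Nat.card_eq_fintype_card] at hb
  obtain ⟨h0, h0inj, h0mem⟩ : ∃ h0 : {w // ¬ P w} → ℕ, Function.Injective h0 ∧
      ∀ w, h0 w ∈ L w.1 \ R := by
    apply (Finset.all_card_le_biUnion_card_iff_exists_injective
      fun w : {w // ¬ P w} => L w.1 \ R).1
    intro s
    rcases s.eq_empty_or_nonempty with rfl | ⟨a, ha⟩
    · simp
    · have h1 : s.card ≤ b := (Finset.card_le_univ s).trans hb
      have h2 : (L a.1 \ R).card ≤ (s.biUnion fun w : {w // ¬ P w} => L w.1 \ R).card :=
        Finset.card_le_card (Finset.subset_biUnion_of_mem (fun w : {w // ¬ P w} =>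
        L w.1 \ R) ha)
      have h3 := ht a.1 a.2
      omega
  set X := (L w1 \ R) \ (Finset.univ.image h0) with hX
  have hXc : t - b ≤ X.card := by
    have h1 := Finset.le_card_sdiff (Finset.univ.image h0) (L w1 \ R)
    have h2 : (Finset.univ.image h0).card ≤ b := Finset.card_image_le.trans (by
      rw [Finset.card_univ]; exact hb)
    have h3 := ht w1 hw1
    rw [hX]
    omega
  refine (Nat.mul_le_mul_right _ hXc).trans ?_
  unfold ncol
  rw [← Finset.card_product]
  apply Finset.card_le_card_of_injOn (fun (q : ℕ × ({w // P w} → ℕ)) (w : W) =>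
    if hw : P w then q.2 ⟨w, hw⟩ else if w = w1 then q.1 else h0 ⟨w, hw⟩)
  · rintro ⟨x, g⟩ hq
    rw [Finset.mem_coe, Finset.mem_product, mem_cols] at hq
    obtain ⟨hx, hg1, hg2⟩ := hq
    simp only at hx hg1 hg2
    rw [hX, Finset.mem_sdiff, Finset.mem_sdiff, Finset.mem_image] at hx
    obtain ⟨⟨hx1, hx2⟩, hx3⟩ := hx
    rw [Finset.mem_coe, mem_cols]
    simp only
    constructor
    · intro w
      by_cases hw : P w
      · rw [dif_pos hw]
        exact (Finset.mem_inter.1 (hg1 ⟨w, hw⟩)).1
      · rw [dif_neg hw]
        split_ifs with h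
        · rw [h]; exact hx1
        · exact (Finset.mem_sdiff.1 (h0mem ⟨w, hw⟩)).1
    · intro u v huv
      have hin : ∀ w (hw : P w), g ⟨w, hw⟩ ∈ R := fun w hw =>
        (Finset.mem_inter.1 (hg1 ⟨w, hw⟩)).2
      have hout : ∀ w (hw : ¬ P w), (if w = w1 then x else h0 ⟨w, hw⟩) ∉ R := by
        intro w hw
        split_ifs
        · exact hx2
        · exact (Finset.mem_sdiff.1 (h0mem ⟨w, hw⟩)).2
      by_cases hu : P u
      · by_cases hv : P v
        · rw [dif_pos hu, dif_pos hv]
          exact hg2 ⟨u, hu⟩ ⟨v, hv⟩ huv
        · rw [dif_pos hu, dif_neg hv]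
          intro he
          exact hout v hv (he ▸ hin u hu)
      · by_cases hv : P v
        · rw [dif_neg hu, dif_pos hv]
          intro he
          exact hout u hu (he ▸ hin v hv)
        · rw [dif_neg hu, dif_neg hv]
          by_cases h1 : u = w1
          · by_cases h2 : v = w1
            · exact absurd (h1.trans h2.symm) huv.ne
            · rw [if_pos h1, if_neg h2]
              intro he
              exact hx3 ⟨_, Finset.mem_univ _, he.symm⟩
          · by_cases h2 : v = w1
            · rw [if_neg h1, if_pos h2]
              intro he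
              exact hx3 ⟨_, Finset.mem_univ _, he⟩
            · rw [if_neg h1, if_neg h2]
              intro he
              have := h0inj he
              exact huv.ne (congrArg Subtype.val this)
  · rintro ⟨x, g⟩ hq ⟨x', g'⟩ hq' he
    simp only at he
    have h1 : x = x' := by
      have := congrFun he w1
      simpa [hw1] using this
    have h2 : g = g' := by
      funext w
      have := congrFun he w.1
      simpa [w.2] using this
    rw [h1, h2]

end

end Pool.Agent.X73.LCJ
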