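import Pool.Agent.X73.LCJ.Join

set_option autoImplicit false

namespace Pool.Agent.X73.LCJ

open Finset

section recolour

variable {W : Type} [Fintype W]

lemma ncol_const_le (H : SimpleGraph W) {R R' : Finset ℕ} (h : R.card = R'.card) :
    ncol H (fun _ => R) ≤ ncol H (fun _ => R') := by
  classical
  have e : R ≃ R' := Finset.equivOfCardEq h
  let g : ℕ → ℕ := fun c => if hc : c ∈ R then (e ⟨c, hc⟩ : ℕ) else 0
  have hg : ∀ c (hc : c ∈ R), g c = e ⟨c, hc⟩ := fun c hc => dif_pos hc
  have hinj : ∀ c c', c ∈ R → c' ∈ R → g c = g c' → c = c' := by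
    intro c c' hc hc' h
    rw [hg c hc, hg c' hc'] at h
    have := e.injective (Subtype.ext h)
    exact congrArg Subtype.val this
  unfold ncol
  apply Finset.card_le_card_of_injOn (fun f => g ∘ f)
  · intro f hf
    rw [Finset.mem_coe, mem_cols] at hf ⊢
    refine ⟨fun w => ?_, fun u v huv hcon => ?_⟩
    · simp only [Function.comp_apply]
      rw [hg _ (hf.1 w)]
      exact (e _).2
    · exact hf.2 u v huv (hinj _ _ (hf.1 u) (hf.1 v) hcon)
  · intro f hf f' hf' hff
    rw [Finset.mem_coe, mem_cols] at hf hf'
    funext w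
    exact hinj _ _ (hf.1 w) (hf'.1 w) (congrFun hff w)

lemma ncol_const_eq (H : SimpleGraph W) {R R' : Finset ℕ} (h : R.card = R'.card) :
    ncol H (fun _ => R) = ncol H (fun _ => R') :=
  le_antisymm (ncol_const_le H h) (ncol_const_le H h.symm)

end recolour

variable {V : Type} [Fintype V]

/-- The embedding that skips the clique vertex `i`. -/
def skip (V : Type) {p : ℕ} (i : Fin (p + 1)) : V ⊕ Fin p → V ⊕ Fin (p + 1) :=
  Sum.map id i.succAbove

omit [Fintype V] in
lemma skip_inj {p : ℕ} (i : Fin (p + 1)) : Function.Injective (skip V i) :=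
  Function.Injective.sumMap Function.injective_id Fin.succAbove_right_injective

omit [Fintype V] in
lemma skip_range {p : ℕ} (i : Fin (p + 1)) (w : V ⊕ Fin (p + 1)) :
    w ≠ Sum.inr i ↔ ∃ w', skip V i w' = w := by
  constructor
  · intro h
    rcases w with v | k
    · exact ⟨Sum.inl v, rfl⟩
    · have : k ≠ i := fun h' => h (by rw [h'])
      obtain ⟨k', hk'⟩ := Fin.exists_succAbove_eq this
      exact ⟨Sum.inr k', by simp [skip, hk']⟩
  · rintro ⟨w', rfl⟩
    rcases w' with v | k
    · simp [skip]
    · simp only [skip, Sum.map_inr, ne_eq, Sum.inr.injEq]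
      exact Fin.succAbove_ne i k

omit [Fintype V] in
lemma comap_skip (G : SimpleGraph V) {p : ℕ} (i : Fin (p + 1)) :
    (J G (p + 1)).comap (skip V i) = J G p := by
  ext x y
  rcases x with a | k <;> rcases y with b | l
  · exact Iff.rfl
  · exact Iff.rfl
  · exact Iff.rfl
  · show i.succAbove k ≠ i.succAbove l ↔ k ≠ l
    rw [ne_eq, ne_eq, Fin.succAbove_right_inj]

lemma extra (G : SimpleGraph V) (p m : ℕ) (I : Finset (Fin (p + 1))) :
    ∀ L : V ⊕ Fin (p + 1) → Finset ℕ, (∀ w, m + 1 ≤ (L w).card) →
      (∀ i ∈ I, m + 2 ≤ (L (Sum.inr i)).card) →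
      Pl (J G (p + 1)) (m + 1) + I.card * Pl (J G p) m ≤ ncol (J G (p + 1)) L := by
  classical
  induction I using Finset.induction_on with
  | empty =>
    intro L hL _
    simpa using Pl_le L hL
  | insert i0 I hi0 ih =>
    intro L hL hI
    have h0 := hI i0 (Finset.mem_insert_self _ _)
    obtain ⟨x, hx⟩ : ∃ x, x ∈ L (Sum.inr i0) := by
      apply Finset.card_pos.1
      omega
    have hs := ncol_split (J G (p + 1)) L (Sum.inr i0) (skip V i0) (skip_inj i0) (skip_range i0)
      ((L (Sum.inr i0)).erase x) (Finset.erase_subset _ _) (fun w' => (L (skip V i0 w')).erase x) (by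
        intro c hc w'
        have : c = x := by
          rw [Finset.mem_sdiff, Finset.mem_erase] at hc
          by_contra hne
          exact hc.2 ⟨hne, hc.1⟩
        rw [this])
    rw [comap_skip] at hs
    have hc1 : (L (Sum.inr i0) \ (L (Sum.inr i0)).erase x).card = 1 := by
      rw [Finset.card_sdiff_of_subset (Finset.erase_subset _ _), Finset.card_erase_of_mem hx]
      omega
    rw [hc1, one_mul] at hs
    have h1 : Pl (J G p) m ≤ ncol (J G p) (fun w' => (L (skip V i0 w')).erase x) := by
      apply Pl_le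
      intro w
      have := hL (skip V i0 w)
      have := Finset.pred_card_le_card_erase (s := L (skip V i0 w)) (a := x)
      omega
    have h2 := ih (Function.update L (Sum.inr i0) ((L (Sum.inr i0)).erase x)) (by
      intro w
      by_cases hw : w = Sum.inr i0
      · subst hw
        rw [Function.update_self, Finset.card_erase_of_mem hx]
        omega
      · rw [Function.update_of_ne hw]
        exact hL w) (by
      intro i hi
      have hne : (Sum.inr i : V ⊕ Fin (p + 1)) ≠ Sum.inr i0 := by
        intro h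
        have := Sum.inr_injective h
        exact hi0 (this ▸ hi)
      rw [Function.update_of_ne hne]
      exact hI i (Finset.mem_insert_of_mem hi))
    rw [Finset.card_insert_of_notMem hi0, add_mul, one_mul]
    omega

/-- Growth in terms of the deviation of the lists on the clique. -/
lemma stepA (G : SimpleGraph V) (p m : ℕ) (L : V ⊕ Fin (p + 2) → Finset ℕ)
    (hL : ∀ w, (L w).card = m + 2) :
    (m + 2) * Pl (J G (p + 1)) (m + 1) +
      (∑ i : Fin (p + 2), (L (Sum.inr (Fin.last _)) \ L (Sum.inr i)).card) * Pl (J G p) m ≤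
      ncol (J G (p + 2)) L := by
  classical
  set w0 : V ⊕ Fin (p + 2) := Sum.inr (Fin.last _) with hw0
  rw [ncol_delete (J G (p + 2)) L w0 (skip V (Fin.last _)) (skip_inj _) (skip_range _)]
  rw [comap_skip]
  have h1 : ∀ c ∈ L w0, Pl (J G (p + 1)) (m + 1) +
      (Finset.univ.filter fun i : Fin (p + 1) =>
        c ∉ L (skip V (Fin.last (p + 1)) (Sum.inr i))).card * Pl (J G p) m ≤
      ncol (J G (p + 1)) (fun w' => if (J G (p + 2)).Adj w0 (skip V (Fin.last (p + 1)) w')
        then (L (skip V (Fin.last (p + 1)) w')).erase c else L (skip V (Fin.last (p + 1)) w')) := by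
    intro c _
    apply extra
    · intro w
      have h2 := hL (skip V (Fin.last (p + 1)) w)
      have h3 := Finset.pred_card_le_card_erase (s := L (skip V (Fin.last (p + 1)) w)) (a := c)
      split_ifs
      · omega
      · omega
    · intro i hi
      rw [Finset.mem_filter] at hi
      have h2 := hL (skip V (Fin.last (p + 1)) (Sum.inr i))
      split_ifs
      · rw [Finset.erase_eq_of_notMem hi.2]
        omega
      · omega
  refine le_trans ?_ (Finset.sum_le_sum h1)
  rw [Finset.sum_add_distrib, Finset.sum_const, ← Finset.sum_mul, smul_eq_mul, hL]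
  gcongr
  rw [Fin.sum_univ_castSucc]
  have h4 : (L w0 \ L (Sum.inr (Fin.last (p + 1)))).card = 0 := by
    rw [hw0]
    simp
  rw [h4, add_zero]
  have h5 : ∀ c ∈ L w0, (Finset.univ.filter fun i : Fin (p + 1) =>
        c ∉ L (skip V (Fin.last (p + 1)) (Sum.inr i))).card =
      ∑ i : Fin (p + 1), if c ∉ L (Sum.inr i.castSucc) then 1 else 0 := by
    intro c _
    rw [Finset.card_filter]
    refine Finset.sum_congr rfl fun i _ => ?_
    simp only [skip, Sum.map_inr, Fin.succAbove_last]
  rw [Finset.sum_congr rfl h5, Finset.sum_comm]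
  refine Finset.sum_le_sum fun i _ => ?_
  rw [← Finset.card_filter]
  apply Finset.card_le_card
  intro c hc
  rw [Finset.mem_sdiff] at hc
  rw [Finset.mem_filter]
  exact hc

/-- Joining one more vertex. -/
lemma Pl_succ (G : SimpleGraph V) (p m : ℕ) :
    (m + 1) * Pl (J G p) m ≤ Pl (J G (p + 1)) (m + 1) := by
  classical
  obtain ⟨L, hL, hmin⟩ := exists_min (J G (p + 1)) (m + 1)
  rw [← hmin, ncol_delete (J G (p + 1)) L (Sum.inr (Fin.last _)) (skip V (Fin.last _)) (skip_inj _)
    (skip_range _), comap_skip]
  rw [← hL (Sum.inr (Fin.last _)), ← smul_eq_mul]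
  refine Finset.card_nsmul_le_sum _ _ _ fun c hc => Pl_le _ fun w => ?_
  have h2 := hL (skip V (Fin.last p) w)
  have h3 := Finset.pred_card_le_card_erase (s := L (skip V (Fin.last p) w)) (a := c)
  split_ifs
  · omega
  · omega

lemma Pu_succ (G : SimpleGraph V) (p m : ℕ) :
    Pu (J G (p + 1)) (m + 1) = (m + 1) * Pu (J G p) m := by
  classical
  unfold Pu
  rw [ncol_delete (J G (p + 1)) _ (Sum.inr (Fin.last _)) (skip V (Fin.last _)) (skip_inj _)
    (skip_range _), comap_skip]
  have h1 : ∀ c ∈ Finset.range (m + 1), ncol (J G p) (fun w' =>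
      if (J G (p + 1)).Adj (Sum.inr (Fin.last p)) (skip V (Fin.last p) w')
        then (Finset.range (m + 1)).erase c else Finset.range (m + 1)) =
      ncol (J G p) (fun _ => Finset.range m) := by
    intro c hc
    have h2 : (fun w' => if (J G (p + 1)).Adj (Sum.inr (Fin.last p)) (skip V (Fin.last p) w')
        then (Finset.range (m + 1)).erase c else Finset.range (m + 1)) =
        fun _ => (Finset.range (m + 1)).erase c := by
      funext w'
      rw [if_pos]
      apply SimpleGraph.Adj.symm
      apply J_inr_adj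
      rw [skip_range]
      exact ⟨w', rfl⟩
    rw [h2]
    apply ncol_const_eq
    rw [Finset.card_erase_of_mem hc]
    simp
  rw [Finset.sum_congr rfl h1, Finset.sum_const, Finset.card_range, smul_eq_mul]

end Pool.Agent.X73.LCJ
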